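import Pool.Agent.Helper48.SQ.Final
import Pool.Agent.Helper7.NM.Classical

set_option autoImplicit false

/-! # Project SQ48 (helper48): choice of the two factors of `Γ = H * G₂` -/

open Polynomial

namespace Pool.Agent.Helper48.SQ

open Pool.Agent.Helper41.Fat Pool.Agent.Helper7.NM

variable {K : Type*} [Field K]

theorem finite_degreeLT (n : ℕ) : Module.Finite K (degreeLT K n) :=
  Module.Finite.equiv (degreeLTEquiv K n).symm

theorem finrank_degreeLT (n : ℕ) : Module.finrank K (degreeLT K n) = n := by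
  rw [(degreeLTEquiv K n).finrank_eq, Module.finrank_fin_fun]

/-- Surjectivity gives injectivity. -/
theorem inj_of_classical {q L : ℕ} {H : K[X]}
    (hcl : ∀ j < q + L, ∃ p, Dig H 1 (fun _ => q) L p ∧ X ^ (q + L) ∣ p - X ^ j)
    {c R : K[X]} (hc : c ∈ degreeLT K q) (hR : R ∈ degreeLT K L)
    (hd : X ^ (q + L) ∣ c + H * R) : c = 0 ∧ R = 0 := by
  classical
  have := finite_degreeLT (K := K) q
  have := finite_degreeLT (K := K) L
  let f : (degreeLT K q × degreeLT K L) →ₗ[K] (Fin (q + L) → K) :=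
    frst K (q + L) ∘ₗ ((degreeLT K q).subtype.coprod
      ((LinearMap.mulLeft K H) ∘ₗ (degreeLT K L).subtype))
  have hf : ∀ x, f x = frst K (q + L) ((x.1 : K[X]) + H * (x.2 : K[X])) := fun x => rfl
  have hfin : Module.finrank K (degreeLT K q × degreeLT K L) =
      Module.finrank K (Fin (q + L) → K) := by
    rw [Module.finrank_prod, finrank_degreeLT, finrank_degreeLT, Module.finrank_fin_fun]
  have hsurj : Function.Surjective f := by
    rw [← LinearMap.range_eq_top, eq_top_iff, ← (Pi.basisFun K (Fin (q + L))).span_eq,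
      Submodule.span_le]
    rintro _ ⟨j, rfl⟩
    obtain ⟨p, ⟨c', R', hc', hR', hp'⟩, hp⟩ := hcl j j.2
    refine ⟨(⟨c' 0, hc' 0 one_pos⟩, ⟨R', hR'⟩), ?_⟩
    rw [hf, Pi.basisFun_apply, frst_eq_iff]
    rw [hp', Finset.sum_range_one, pow_zero, one_mul, pow_one] at hp
    exact hp
  have hinj := (LinearMap.injective_iff_surjective_of_finrank_eq_finrank hfin).2 hsurj
  have h1 : f (⟨c, hc⟩, ⟨R, hR⟩) = 0 := by
    rw [hf]
    funext l
    rw [frst_apply]
    exact (X_pow_dvd_iff.1 hd) l l.2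
  have h2 := hinj (h1.trans (map_zero f).symm)
  have h3 := congrArg (fun x : degreeLT K q × degreeLT K L => ((x.1 : K[X]), (x.2 : K[X]))) h2
  have h4 := congrArg Prod.fst h3
  have h5 := congrArg Prod.snd h3
  exact ⟨h4, h5⟩

theorem exists_H [Infinite K] {κ g : ℕ} (q Y : ℕ → ℕ)
    (hY : ∀ i ≤ g, κ ≤ Y i) :
    ∃ H : K[X], H.Monic ∧ H.natDegree = κ ∧ H.coeff 0 ≠ 0 ∧
      ∀ i ≤ g, q i < κ → ∀ S ∈ degreeLT K (Y i), S %ₘ H ∈ degreeLT K (q i) →
        X ^ (q i + (Y i - κ)) ∣ S → S = 0 := by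
  classical
  obtain ⟨H, hH, hH0, hcl⟩ := exists_classical (K := K) κ (g + 1)
    (fun i => if q i < κ then 1 else 0) (fun i _ => q i)
    (fun i => if q i < κ then Y i - κ else 0) (fun i _ k l _ _ => le_rfl) (by
      intro i _ k hk
      beta_reduce at hk ⊢
      split_ifs at hk with h
      · exact h
      · omega)
  have hHne : H ≠ 0 := by
    intro h
    rw [h, coeff_zero] at hH0
    exact zero_ne_one hH0
  set lc : K := H.leadingCoeff with hlc
  have hlc0 : lc ≠ 0 := leadingCoeff_ne_zero.2 hHne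
  set H' : K[X] := H * C lc⁻¹ with hH'
  have hmon : H'.Monic := monic_mul_leadingCoeff_inv hHne
  have hdeg : H'.natDegree = κ := by
    rw [hH', natDegree_mul_C (inv_ne_zero hlc0), hH]
  refine ⟨H', hmon, hdeg, ?_, ?_⟩
  · rw [hH', coeff_mul_C, hH0, one_mul]
    exact inv_ne_zero hlc0
  · intro i hi hqi S hS hmod hdvd
    have h1 := hcl i (by omega)
    simp only [hqi, if_true, Finset.sum_range_one] at h1
    have h2 : S = S %ₘ H' + H' * (S /ₘ H') := (modByMonic_add_div S H').symm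
    have h3 : H' * (S /ₘ H') = H * (C lc⁻¹ * (S /ₘ H')) := by
      rw [hH']
      ring
    have h4 : S /ₘ H' ∈ degreeLT K (Y i - κ) := by
      have h5 : H' * (S /ₘ H') ∈ degreeLT K (Y i) := by
        have h6 : H' * (S /ₘ H') = S - S %ₘ H' := by
          conv_rhs => rw [h2]
          rw [add_modByMonic, modByMonic_eq_zero_iff_dvd hmon |>.2 (dvd_mul_right _ _)]
          rw [(modByMonic_eq_self_iff hmon).2 (degree_modByMonic_lt S hmon)]
          ring
        rw [h6]
        refine Submodule.sub_mem _ hS (degreeLT_mono ?_ hmod)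
        exact hqi.le.trans (hY i hi)
      exact of_mul_mem_degreeLT hmon.ne_zero hdeg.ge h5
    have h7 : C lc⁻¹ * (S /ₘ H') ∈ degreeLT K (Y i - κ) := by
      rw [← smul_eq_C_mul]
      exact Submodule.smul_mem _ _ h4
    have h8 := inj_of_classical (H := H) h1 hmod h7 (by
      rw [← h3, ← h2]
      exact hdvd)
    rw [h2, h3, h8.2, h8.1, mul_zero, add_zero]

theorem degreeLT_eq_sum {n : ℕ} {T : K[X]} (hT : T ∈ degreeLT K n) :
    T = ∑ j : Fin n, T.coeff j • X ^ (j : ℕ) := by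
  have h1 : T.degree < n := mem_degreeLT.1 hT
  rw [Fin.sum_univ_eq_sum_range (fun j => T.coeff j • (X : K[X]) ^ j) n]
  ext k
  rw [finsetSum_coeff]
  by_cases hk : k < n
  · rw [Finset.sum_eq_single k]
    · rw [coeff_smul, coeff_X_pow, if_pos rfl, smul_eq_mul, mul_one]
    · intro b _ hb
      rw [coeff_smul, coeff_X_pow, if_neg (Ne.symm hb), smul_zero]
    · intro hk'
      exact absurd (Finset.mem_range.2 hk) hk'
  · rw [Finset.sum_eq_zero]
    · exact coeff_eq_zero_of_degree_lt (lt_of_lt_of_le h1 (by exact_mod_cast not_lt.1 hk))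
    · intro b hb
      rw [Finset.mem_range] at hb
      rw [coeff_smul, coeff_X_pow, if_neg (by omega), smul_zero]

theorem exists_G₂ [Infinite K] {κ b g : ℕ} {H : K[X]} (hHm : H.Monic) (hH : H.natDegree = κ)
    (hb : 0 < b) (q D : ℕ → ℕ)
    (hinj : ∀ i ≤ g, ∀ T ∈ degreeLT K (κ - q i), (X ^ (D i) * T) %ₘ H ∈ degreeLT K (q i) →
      T = 0) :
    ∃ G₂ : K[X], G₂.natDegree = b ∧ G₂.coeff 0 = 1 ∧ ∀ i ≤ g, ∀ T ∈ degreeLT K (κ - q i),
      (G₂ ^ i * (X ^ (D i) * T)) %ₘ H ∈ degreeLT K (q i) → T = 0 := by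
  classical
  let Φ : (i : ℕ) → K[X] →ₗ[K] (Fin (κ - q i) → K) := fun i =>
    (LinearMap.pi fun l => lcoeff K (q i + (l : ℕ))) ∘ₗ modByMonicHom H
  have hΦ : ∀ (i : ℕ) (P : K[X]), Φ i P = 0 ↔ P %ₘ H ∈ degreeLT K (q i) := by
    intro i P
    have h0 : (P %ₘ H).degree < κ := by
      have := degree_modByMonic_lt P hHm
      rwa [degree_eq_natDegree hHm.ne_zero, hH] at this
    constructor
    · intro h
      rw [mem_degreeLT, degree_lt_iff_coeff_zero]
      intro l hl
      by_cases hlk : l < κ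
      · have h1 := congrFun h ⟨l - q i, by omega⟩
        have h2 : (P %ₘ H).coeff (q i + (l - q i)) = 0 := h1
        rwa [Nat.add_sub_cancel' hl] at h2
      · exact coeff_eq_zero_of_degree_lt (lt_of_lt_of_le h0 (by exact_mod_cast not_lt.1 hlk))
    · intro h
      rw [mem_degreeLT, degree_lt_iff_coeff_zero] at h
      funext l
      exact h (q i + l) (Nat.le_add_right _ _)
  let w : (i : ℕ) → Fin (κ - q i) → K[X][X] := fun i j =>
    (1 + C (X ^ b) * X) ^ i * C (X ^ (D i + (j : ℕ)))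
  have hwe : ∀ i j (τ : K), (w i j).eval (algebraMap K K[X] τ) =
      (1 + C τ * X ^ b) ^ i * X ^ (D i + (j : ℕ)) := by
    intro i j τ
    simp only [w, eval_mul, eval_pow, eval_add, eval_one, eval_C, eval_X, algebraMap_eq]
    ring
  have hw0 : ∀ i j, (w i j).coeff 0 = X ^ (D i + (j : ℕ)) := by
    intro i j
    have h1 := hwe i j 0
    rw [map_zero, ← coeff_zero_eq_eval_zero] at h1
    rw [h1, C_0, zero_mul, add_zero, one_pow, one_mul]
  have hli : ∀ i ≤ g, LinearIndependent K (fun j => Φ i ((w i j).coeff 0)) := by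
    intro i hi
    rw [Fintype.linearIndependent_iff]
    intro α hα
    have h1 : Φ i (X ^ (D i) * ∑ j : Fin (κ - q i), α j • X ^ (j : ℕ)) = 0 := by
      rw [← hα, Finset.mul_sum, map_sum]
      refine Finset.sum_congr rfl fun j _ => ?_
      rw [hw0, mul_smul_comm, map_smul, pow_add]
    have hT : (∑ j : Fin (κ - q i), α j • (X : K[X]) ^ (j : ℕ)) ∈ degreeLT K (κ - q i) := by
      refine Submodule.sum_mem _ fun j _ => Submodule.smul_mem _ _ ?_
      rw [mem_degreeLT, degree_X_pow]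
      exact_mod_cast j.2
    have h2 := hinj i hi _ hT ((hΦ i _).1 h1)
    intro j
    have h3 := congrArg (fun p => coeff p (j : ℕ)) h2
    simp only [finsetSum_coeff, coeff_smul, coeff_X_pow, coeff_zero, smul_eq_mul] at h3
    rw [Finset.sum_eq_single j] at h3
    · rwa [if_pos rfl, mul_one] at h3
    · intro b _ hb
      rw [if_neg (fun h => hb (Fin.ext h.symm)), mul_zero]
    · intro h
      exact absurd (Finset.mem_univ j) h
  have hbad : ((⋃ i ∈ Finset.range (g + 1), {τ : K | ¬ LinearIndependent K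
      (fun j => Φ i ((w i j).eval (algebraMap K K[X] τ)))}) ∪ {0}).Finite := by
    apply Set.Finite.union
    · apply Set.Finite.biUnion (Finset.finite_toSet (Finset.range (g + 1)))
      intro i hi
      exact finite_bad (Φ i) (w i) (hli i (by
        have := Finset.mem_range.1 (Finset.mem_coe.1 hi)
        omega))
    · exact Set.finite_singleton 0
  obtain ⟨τ, hτ⟩ := hbad.exists_notMem
  rw [Set.mem_union, not_or] at hτ
  obtain ⟨hτ1, hτ0⟩ := hτ
  have hτ0' : τ ≠ 0 := fun h => hτ0 (by rw [h]; exact Set.mem_singleton 0)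
  refine ⟨1 + C τ * X ^ b, ?_, ?_, ?_⟩
  · rw [add_comm, ← C_1, natDegree_add_C, natDegree_C_mul_X_pow b τ hτ0']
  · rw [coeff_add, coeff_one_zero, coeff_C_mul, coeff_X_pow, if_neg (by omega), mul_zero, add_zero]
  · intro i hi T hT hmod
    have hlin : LinearIndependent K (fun j => Φ i ((w i j).eval (algebraMap K K[X] τ))) := by
      by_contra hcon
      apply hτ1
      rw [Set.mem_iUnion₂]
      exact ⟨i, Finset.mem_range.2 (by omega), hcon⟩
    rw [Fintype.linearIndependent_iff] at hlin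
    have h1 : ∑ j : Fin (κ - q i), T.coeff j • Φ i ((w i j).eval (algebraMap K K[X] τ)) = 0 := by
      rw [← (hΦ i _).2 hmod]
      conv_rhs => rw [degreeLT_eq_sum hT]
      rw [Finset.mul_sum, Finset.mul_sum, map_sum]
      refine Finset.sum_congr rfl fun j _ => ?_
      rw [hwe, ← map_smul, mul_smul_comm, mul_smul_comm, pow_add]
    have h2 := hlin (fun j => T.coeff j) h1
    rw [degreeLT_eq_sum hT]
    refine Finset.sum_eq_zero fun j _ => ?_
    rw [h2 j, zero_smul]

theorem exists_HG [Infinite K] {κ b g r m : ℕ} (hb : 0 < b) (q Y : ℕ → ℕ)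
    (hq : ∀ i ≤ g, q i ≤ κ) (hY : ∀ i ≤ g, κ ≤ Y i)
    (hr : ∀ i ≤ g, Y i + q i ≤ r * (m - i) + κ) :
    ∃ H G₂ : K[X], H.Monic ∧ H.natDegree = κ ∧ G₂.natDegree = b ∧ G₂ ≠ 0 ∧
      (H * G₂).coeff 0 ≠ 0 ∧ ∀ i ≤ g, ∀ S ∈ degreeLT K (Y i),
        (G₂ ^ i * S) %ₘ H ∈ degreeLT K (q i) → X ^ (r * (m - i)) ∣ S → S = 0 := by
  obtain ⟨H, hHm, hH, hH0, hinjH⟩ := exists_H (K := K) (κ := κ) (g := g) q Y hY
  obtain ⟨G₂, hG₂, hG₂0, hinj⟩ := exists_G₂ (g := g) hHm hH hb q (fun i => q i + (Y i - κ)) (by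
    intro i hi T hT hmod
    rcases lt_or_ge (q i) κ with h | h
    · have h1 : X ^ (q i + (Y i - κ)) * T ∈ degreeLT K (Y i) := by
        have h2 := mul_mem_degreeLT (p := (X : K[X]) ^ (q i + (Y i - κ)))
          (a := q i + (Y i - κ)) (natDegree_X_pow_le _) hT
        refine degreeLT_mono ?_ h2
        have := hY i hi
        omega
      have h3 := hinjH i hi h _ h1 hmod (dvd_mul_right _ _)
      exact (mul_eq_zero.1 h3).resolve_left (pow_ne_zero _ X_ne_zero)
    · exact eq_zero_of_degreeLT_zero (by omega) hT)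
  have hG₂ne : G₂ ≠ 0 := by
    intro h
    rw [h, coeff_zero] at hG₂0
    exact zero_ne_one hG₂0
  refine ⟨H, G₂, hHm, hH, hG₂, hG₂ne, ?_, ?_⟩
  · rw [mul_coeff_zero, hG₂0, mul_one]
    exact hH0
  · intro i hi S hS hmod hdvd
    obtain ⟨T, hT⟩ : X ^ (q i + (Y i - κ)) ∣ S := by
      refine (pow_dvd_pow X ?_).trans hdvd
      have := hr i hi
      have := hY i hi
      omega
    have h1 : T ∈ degreeLT K (κ - q i) := by
      rw [hT] at hS
      have h2 := of_mul_mem_degreeLT (pow_ne_zero _ X_ne_zero)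
        (natDegree_X_pow (R := K) (q i + (Y i - κ))).ge hS
      refine degreeLT_mono ?_ h2
      have := hY i hi
      have := hq i hi
      omega
    have h3 := hinj i hi T h1 (by rw [← hT]; exact hmod)
    rw [hT, h3, mul_zero]

end Pool.Agent.Helper48.SQ
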