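import Pool.Agent.Helper48.SQ.Tower
import Pool.Agent.Helper48.SQ.Classic

set_option autoImplicit false

/-! # Project SQ48 (helper48): the corner space, and counting -/

open Polynomial

namespace Pool.Agent.Helper48.SQ

open Pool.Agent.Helper41.Fat Pool.Agent.Helper7.NM

variable {K : Type*} [Field K]

theorem modByMonic_of_degreeLT {H : K[X]} {κ : ℕ} (hHm : H.Monic) (hH : H.natDegree = κ)
    {P : K[X]} (hP : P ∈ degreeLT K κ) : P %ₘ H = P := by
  rw [modByMonic_eq_self_iff hHm, degree_eq_natDegree hHm.ne_zero, hH]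
  exact mem_degreeLT.1 hP

theorem degreeLT_modByMonic {H : K[X]} {κ : ℕ} (hHm : H.Monic) (hH : H.natDegree = κ)
    (P : K[X]) : P %ₘ H ∈ degreeLT K κ := by
  rw [mem_degreeLT]
  have := degree_modByMonic_lt P hHm
  rwa [degree_eq_natDegree hHm.ne_zero, hH] at this

theorem modByMonic_add_mul {H : K[X]} (hHm : H.Monic) (P A : K[X]) :
    (P + H * A) %ₘ H = P %ₘ H := by
  rw [add_modByMonic, (modByMonic_eq_zero_iff_dvd hHm).2 (dvd_mul_right H _), add_zero]

/-- Reading a digit. -/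
theorem digA {H : K[X]} {κ : ℕ} (hHm : H.Monic) (hH : H.natDegree = κ) :
    ∀ (i n : ℕ) (d : ℕ → K[X]) (A : K[X]), i ≤ n → (∀ j ≤ n, d j ∈ degreeLT K κ) →
      H ^ i * A = ∑ j ∈ Finset.range (n + 1), H ^ j * d j → A %ₘ H = d i := by
  intro i
  induction i with
  | zero =>
    intro n d A _ hd hA
    rw [pow_zero, one_mul] at hA
    have h1 : A = d 0 + H * ∑ j ∈ Finset.range n, H ^ j * d (j + 1) := by
      rw [hA, Finset.sum_range_succ', pow_zero, one_mul, add_comm, Finset.mul_sum]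
      congr 1
      refine Finset.sum_congr rfl fun j _ => ?_
      rw [pow_succ]
      ring
    rw [h1, modByMonic_add_mul hHm, modByMonic_of_degreeLT hHm hH (hd 0 (Nat.zero_le _))]
  | succ i ih =>
    intro n d A hin hd hA
    obtain ⟨n, rfl⟩ : ∃ n', n = n' + 1 := ⟨n - 1, by omega⟩
    have h1 : H * (H ^ i * A) = d 0 + H * ∑ j ∈ Finset.range (n + 1), H ^ j * d (j + 1) := by
      have h2 : H * (H ^ i * A) = H ^ (i + 1) * A := by
        rw [pow_succ]
        ring
      rw [h2, hA, Finset.sum_range_succ', pow_zero, one_mul, add_comm, Finset.mul_sum]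
      congr 1
      refine Finset.sum_congr rfl fun j _ => ?_
      rw [pow_succ]
      ring
    have h3 : d 0 = 0 := by
      have h4 := congrArg (fun p => p %ₘ H) h1
      beta_reduce at h4
      rw [modByMonic_add_mul hHm, modByMonic_of_degreeLT hHm hH (hd 0 (Nat.zero_le _)),
        (modByMonic_eq_zero_iff_dvd hHm).2 (dvd_mul_right H _)] at h4
      exact h4.symm
    rw [h3, zero_add] at h1
    have h5 := mul_left_cancel₀ hHm.ne_zero h1
    exact ih n (fun j => d (j + 1)) A (by omega) (fun j hj => hd (j + 1) (by omega)) h5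

/-- The remainder vanishes when `H ^ (g + 1 - ν)` divides. -/
theorem corner_rem {H : K[X]} {κ g ν ρ : ℕ} (hHm : H.Monic) (hH : H.natDegree = κ)
    (hρ : ρ ≤ κ * (g + 1 - ν)) {c : ℕ → K[X]} {R : K[X]}
    (hR : R ∈ degreeLT K ρ) (hd : H ^ (g + 1 - ν) ∣ ∑ k ∈ Finset.range ν, H ^ (g - k) * c k + R) :
    R = 0 := by
  have h1 : H ^ (g + 1 - ν) ∣ ∑ k ∈ Finset.range ν, H ^ (g - k) * c k := by
    refine Finset.dvd_sum fun k hk => ?_
    rw [Finset.mem_range] at hk
    exact (pow_dvd_pow H (by omega)).mul_right _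
  obtain ⟨B, hB⟩ := (dvd_add_right h1).1 hd
  have h2 : B ∈ degreeLT K 0 := by
    rw [hB] at hR
    have h3 := of_mul_mem_degreeLT (a := κ * (g + 1 - ν)) (pow_ne_zero _ hHm.ne_zero)
      (by rw [natDegree_pow, hH, mul_comm]) hR
    exact degreeLT_mono (by omega) h3
  rw [hB, eq_zero_of_degreeLT_zero rfl h2, mul_zero]

/-- Rewriting the digits. -/
theorem corner_sum (H : K[X]) {g ν : ℕ} (hν : ν ≤ g + 1) (c : ℕ → K[X]) :
    ∑ k ∈ Finset.range ν, H ^ (g - k) * c k =
      ∑ j ∈ Finset.range (g + 1), H ^ j * (if g - j < ν then c (g - j) else 0) := by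
  have h1 : ∑ k ∈ Finset.range ν, H ^ (g - k) * c k =
      ∑ k ∈ Finset.range (g + 1), H ^ (g - k) * (if k < ν then c k else 0) := by
    rw [← Finset.sum_subset (Finset.range_subset_range.2 hν)]
    · refine Finset.sum_congr rfl fun k hk => ?_
      rw [if_pos (Finset.mem_range.1 hk)]
    · intro k _ hk
      rw [if_neg (fun h => hk (Finset.mem_range.2 h)), mul_zero]
  rw [h1]
  rw [← Finset.sum_range_reflect]
  refine Finset.sum_congr rfl fun j hj => ?_
  rw [Finset.mem_range] at hj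
  have e1 : g + 1 - 1 - j = g - j := by omega
  have e2 : g - (g - j) = j := by omega
  rw [e1, e2]

/-- The bound for the residue at level `i`. -/
def qd (κ g ν ρ i : ℕ) : ℕ := if i < g + 1 - ν then min κ (ρ - κ * i) else g + 1 - i

theorem corner_deg {H : K[X]} {κ g ν ρ : ℕ} (hH : H.natDegree = κ) (hκ : 0 < κ)
    (hν : ν ≤ g + 1) (hρ : ρ ≤ κ * g + 1) {P : K[X]} (h : Wd H 1 g ν ρ P) :
    P ∈ degreeLT K (κ * g + 1) := by
  obtain ⟨c, R, hc, hR, rfl⟩ := h
  refine Submodule.add_mem _ (Submodule.sum_mem _ fun k hk => ?_) ?_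
  · rw [Finset.mem_range] at hk
    rw [one_pow, mul_one]
    have h1 : (H ^ (g - k)).natDegree ≤ κ * (g - k) := by
      rw [natDegree_pow, hH, mul_comm]
    refine degreeLT_mono ?_ (mul_mem_degreeLT h1 (hc k hk))
    obtain ⟨j, hj⟩ : ∃ j, g = k + j := ⟨g - k, by omega⟩
    have e1 : g - k = j := by omega
    have e2 : κ * g = κ * k + κ * j := by rw [hj]; ring
    have e3 : k ≤ κ * k := Nat.le_mul_of_pos_left k hκ
    rw [e1]
    omega
  · rw [one_pow, one_mul]
    exact degreeLT_mono hρ hR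

theorem corner_mod {H : K[X]} {κ g ν ρ : ℕ} (hHm : H.Monic) (hH : H.natDegree = κ)
    (hν : ν ≤ g + 1) (hνκ : ν ≤ κ) (hρ : ρ ≤ κ * (g + 1 - ν)) {P : K[X]} (h : Wd H 1 g ν ρ P) :
    ∀ i ≤ g, ∀ A, H ^ i * A = P → A %ₘ H ∈ degreeLT K (qd κ g ν ρ i) := by
  obtain ⟨c, R, hc, hR, rfl⟩ := h
  intro i hi A hA
  simp only [one_pow, mul_one, one_mul] at hA
  rw [qd]
  split_ifs with hcase
  · -- low levels
    have h1 : H ^ (i + 1) ∣ ∑ k ∈ Finset.range ν, H ^ (g - k) * c k := by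
      refine Finset.dvd_sum fun k hk => ?_
      rw [Finset.mem_range] at hk
      exact (pow_dvd_pow H (by omega)).mul_right _
    obtain ⟨B, hB⟩ := h1
    have h2 : H ^ i ∣ R := by
      have h3 : R = H ^ i * (A - H * B) := by
        have h4 : R = H ^ i * A - ∑ k ∈ Finset.range ν, H ^ (g - k) * c k := by
          rw [hA]
          ring
        rw [h4, hB, pow_succ]
        ring
      rw [h3]
      exact dvd_mul_right _ _
    obtain ⟨R', hR'⟩ := h2
    have hR'2 : R' ∈ degreeLT K (ρ - κ * i) := by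
      rw [hR'] at hR
      exact of_mul_mem_degreeLT (pow_ne_zero _ hHm.ne_zero)
        (by rw [natDegree_pow, hH, mul_comm]) hR
    have h5 : A = R' + H * B := by
      apply mul_left_cancel₀ (pow_ne_zero i hHm.ne_zero)
      rw [hA, hB, hR', pow_succ]
      ring
    rw [h5, modByMonic_add_mul hHm]
    rcases le_total κ (ρ - κ * i) with h6 | h6
    · rw [min_eq_left h6]
      exact degreeLT_modByMonic hHm hH _
    · rw [min_eq_right h6, modByMonic_of_degreeLT hHm hH (degreeLT_mono h6 hR'2)]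
      exact hR'2
  · -- high levels
    have h1 : R = 0 := by
      refine corner_rem (c := c) hHm hH hρ hR ?_
      rw [← hA]
      exact (pow_dvd_pow H (by omega)).mul_right _
    rw [h1, add_zero, corner_sum H hν] at hA
    have h2 := digA hHm hH i g (fun j => if g - j < ν then c (g - j) else 0) A hi (by
      intro j hj
      beta_reduce
      split_ifs with h3
      · exact degreeLT_mono (by omega) (hc _ h3)
      · exact Submodule.zero_mem _) hA
    rw [h2]
    beta_reduce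
    rw [if_pos (by omega)]
    refine degreeLT_mono ?_ (hc _ (by omega))
    omega

/-- The vectors of the corner space are independent. -/
theorem corner_zero {H : K[X]} {κ g ν ρ : ℕ} (hHm : H.Monic) (hH : H.natDegree = κ)
    (hν : ν ≤ g + 1) (hνκ : ν ≤ κ) (hρ : ρ ≤ κ * (g + 1 - ν)) {c : ℕ → K[X]} {R : K[X]}
    (hc : ∀ k < ν, c k ∈ degreeLT K (k + 1)) (hR : R ∈ degreeLT K ρ)
    (h : ∑ k ∈ Finset.range ν, H ^ (g - k) * c k + R = 0) : (∀ k < ν, c k = 0) ∧ R = 0 := by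
  have h1 : R = 0 := by
    refine corner_rem (c := c) hHm hH hρ hR ?_
    rw [h]
    exact dvd_zero _
  refine ⟨?_, h1⟩
  rw [h1, add_zero, corner_sum H hν] at h
  intro k hk
  have h2 := digA hHm hH (g - k) g (fun j => if g - j < ν then c (g - j) else 0) 0 (by omega) (by
      intro j hj
      beta_reduce
      split_ifs with h3
      · exact degreeLT_mono (by omega) (hc _ h3)
      · exact Submodule.zero_mem _) (by
      rw [mul_zero]
      exact h.symm)
  beta_reduce at h2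
  have h3 : g - (g - k) = k := by omega
  rw [h3, if_pos hk, zero_modByMonic] at h2
  exact h2.symm

/-- The domain of the parametrization. -/
abbrev Dom (K : Type*) [Field K] (Q ν ρ : ℕ) (N : ℕ → ℕ) : Type _ :=
  ((∀ k : Fin ν, degreeLT K ((k : ℕ) + 1)) × degreeLT K ρ) ×
    (∀ k : Fin Q, degreeLT K (N ((k : ℕ) + 1)))

theorem finrank_dom (Q ν ρ : ℕ) (N : ℕ → ℕ) :
    Module.finrank K (Dom K Q ν ρ N) = tri ν + ρ + ∑ k ∈ Finset.range Q, N (k + 1) := by
  have : ∀ n, Module.Finite K (degreeLT K n) := finite_degreeLT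
  rw [Module.finrank_prod, Module.finrank_prod, Module.finrank_pi_fintype,
    Module.finrank_pi_fintype]
  simp only [finrank_degreeLT]
  rw [Fin.sum_univ_eq_sum_range (fun k => k + 1) ν,
    Fin.sum_univ_eq_sum_range (fun k => N (k + 1)) Q]
  rfl

/-- The parametrization. -/
noncomputable def par (H : K[X]) (g Q ν ρ : ℕ) (N : ℕ → ℕ) : Dom K Q ν ρ N →ₗ[K] K[X][X] where
  toFun x := C (∑ k : Fin ν, H ^ (g - (k : ℕ)) * (x.1.1 k : K[X]) + (x.1.2 : K[X])) +
    ∑ k : Fin Q, C (x.2 k : K[X]) * X ^ ((k : ℕ) + 1)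
  map_add' x y := by
    simp only [Prod.fst_add, Prod.snd_add, Pi.add_apply, Submodule.coe_add, mul_add, C_add,
      add_mul, Finset.sum_add_distrib]
    ring
  map_smul' a x := by
    simp only [Prod.smul_fst, Prod.smul_snd, Pi.smul_apply, Submodule.coe_smul, RingHom.id_apply]
    rw [smul_add, Finset.smul_sum]
    congr 1
    · rw [smul_C, smul_add, Finset.smul_sum]
      simp only [mul_smul_comm]
    · refine Finset.sum_congr rfl fun k _ => ?_
      rw [← smul_mul_assoc, smul_C]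

theorem par_apply (H : K[X]) (g Q ν ρ : ℕ) (N : ℕ → ℕ) (x : Dom K Q ν ρ N) :
    par H g Q ν ρ N x = C (∑ k : Fin ν, H ^ (g - (k : ℕ)) * (x.1.1 k : K[X]) + (x.1.2 : K[X])) +
    ∑ k : Fin Q, C (x.2 k : K[X]) * X ^ ((k : ℕ) + 1) := rfl

theorem par_coeff_zero (H : K[X]) (g Q ν ρ : ℕ) (N : ℕ → ℕ) (x : Dom K Q ν ρ N) :
    (par H g Q ν ρ N x).coeff 0 = ∑ k : Fin ν, H ^ (g - (k : ℕ)) * (x.1.1 k : K[X]) +
      (x.1.2 : K[X]) := by
  have h1 : ∑ k : Fin Q, (C (x.2 k : K[X]) * X ^ ((k : ℕ) + 1) : K[X][X]).coeff 0 = 0 := by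
    refine Finset.sum_eq_zero fun k _ => ?_
    rw [coeff_C_mul_X_pow, if_neg (by omega)]
  rw [par_apply, coeff_add, coeff_C_zero, finsetSum_coeff, h1, add_zero]

theorem par_coeff_succ (H : K[X]) (g Q ν ρ : ℕ) (N : ℕ → ℕ) (x : Dom K Q ν ρ N) (k : Fin Q) :
    (par H g Q ν ρ N x).coeff ((k : ℕ) + 1) = (x.2 k : K[X]) := by
  rw [par_apply, coeff_add, coeff_C_of_ne_zero (Nat.succ_ne_zero _), zero_add, finsetSum_coeff,
    Finset.sum_eq_single k]
  · rw [coeff_C_mul_X_pow, if_pos rfl]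
  · intro j _ hj
    rw [coeff_C_mul_X_pow, if_neg]
    intro h
    exact hj (Fin.ext (by omega))
  · intro h
    exact absurd (Finset.mem_univ k) h

theorem par_natDegree (H : K[X]) (g Q ν ρ : ℕ) (N : ℕ → ℕ) (x : Dom K Q ν ρ N) :
    (par H g Q ν ρ N x).natDegree ≤ Q := by
  rw [natDegree_le_iff_coeff_eq_zero]
  intro n hn
  rw [par_apply, coeff_add, coeff_C_of_ne_zero (by omega), zero_add, finsetSum_coeff]
  refine Finset.sum_eq_zero fun k _ => ?_
  rw [coeff_C_mul_X_pow, if_neg]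
  have := k.2
  omega

theorem par_wd (H : K[X]) (g Q ν ρ : ℕ) (N : ℕ → ℕ) (x : Dom K Q ν ρ N) :
    Wd H 1 g ν ρ ((par H g Q ν ρ N x).coeff 0) := by
  classical
  rw [par_coeff_zero]
  refine ⟨fun k => if h : k < ν then (x.1.1 ⟨k, h⟩ : K[X]) else 0, x.1.2, ?_, x.1.2.2, ?_⟩
  · intro k hk
    beta_reduce
    rw [dif_pos hk]
    exact (x.1.1 ⟨k, hk⟩).2
  · rw [Finset.sum_range]
    simp only [one_pow, mul_one, one_mul, Fin.is_lt, dif_pos, Fin.eta]

theorem par_inj {H : K[X]} {κ g Q ν ρ : ℕ} {N : ℕ → ℕ} (hHm : H.Monic) (hH : H.natDegree = κ)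
    (hν : ν ≤ g + 1) (hνκ : ν ≤ κ) (hρ : ρ ≤ κ * (g + 1 - ν)) {x : Dom K Q ν ρ N}
    (h : par H g Q ν ρ N x = 0) : x = 0 := by
  classical
  have h1 : ∀ k : Fin Q, x.2 k = 0 := by
    intro k
    apply Subtype.ext
    rw [← par_coeff_succ H g Q ν ρ N x k, h]
    rfl
  have h2 := par_coeff_zero H g Q ν ρ N x
  rw [h, coeff_zero] at h2
  have h3 : ∑ k ∈ Finset.range ν, H ^ (g - k) *
      (if h : k < ν then (x.1.1 ⟨k, h⟩ : K[X]) else 0) + (x.1.2 : K[X]) = 0 := by
    rw [Finset.sum_range]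
    simp only [Fin.is_lt, dif_pos, Fin.eta]
    exact h2.symm
  obtain ⟨h4, h5⟩ := corner_zero hHm hH hν hνκ hρ (c := fun k =>
    if h : k < ν then (x.1.1 ⟨k, h⟩ : K[X]) else 0) (by
      intro k hk
      beta_reduce
      rw [dif_pos hk]
      exact (x.1.1 ⟨k, hk⟩).2) x.1.2.2 h3
  refine Prod.ext (Prod.ext ?_ ?_) ?_
  · funext k
    apply Subtype.ext
    have h6 := h4 k k.2
    beta_reduce at h6
    rw [dif_pos k.2] at h6
    exact h6
  · exact Subtype.ext h5
  · funext k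
    exact h1 k

/-- Counting. -/
theorem goodS_final {r m κ g Q ν ρ R : ℕ} {Γ H : K[X]} {N : ℕ → ℕ} {S : ℕ → K[X] → Prop}
    (hHm : H.Monic) (hH : H.natDegree = κ) (hν : ν ≤ g + 1) (hνκ : ν ≤ κ)
    (hρ : ρ ≤ κ * (g + 1 - ν))
    (hinj : ∀ F : K[X][X], F.natDegree ≤ Q → Wd H 1 g ν ρ (F.coeff 0) →
      (∀ k, 1 ≤ k → k ≤ Q → F.coeff k ∈ degreeLT K (N k)) → taylor Γ F ∈ cond K r m → F = 0)
    (hR : R = tri ν + ρ + ∑ k ∈ Finset.range Q, N (k + 1))
    (hS0 : ∀ P, Wd H 1 g ν ρ P → S 0 P)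
    (hSk : ∀ k, 1 ≤ k → k ≤ Q → ∀ P ∈ degreeLT K (N k), S k P) :
    GoodS r m Γ S Q R := by
  classical
  have hrow : ∀ (x : Dom K Q ν ρ N) (k : ℕ), 1 ≤ k → k ≤ Q →
      (par H g Q ν ρ N x).coeff k ∈ degreeLT K (N k) := by
    intro x k hk hkQ
    obtain ⟨j, rfl⟩ : ∃ j, k = j + 1 := ⟨k - 1, by omega⟩
    have h1 : (par H g Q ν ρ N x).coeff (j + 1) = (x.2 (⟨j, by omega⟩ : Fin Q) : K[X]) :=
      par_coeff_succ H g Q ν ρ N x ⟨j, by omega⟩
    rw [h1]
    exact (x.2 (⟨j, by omega⟩ : Fin Q)).2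
  have : ∀ n, Module.Finite K (degreeLT K n) := finite_degreeLT
  have hfr : Module.finrank K (Dom K Q ν ρ N) = R := by
    rw [finrank_dom, hR]
  let b := Module.finBasisOfFinrankEq K (Dom K Q ν ρ N) hfr
  refine ⟨fun i => par H g Q ν ρ N (b i), ?_, ?_⟩
  · intro i
    refine ⟨par_natDegree _ _ _ _ _ _ _, ?_⟩
    intro k hk
    rcases Nat.eq_zero_or_pos k with h | h
    · subst h
      exact hS0 _ (par_wd _ _ _ _ _ _ _)
    · exact hSk k h hk _ (hrow _ k h hk)
  · have h1 : LinearMap.ker (Phi K r m Γ ∘ₗ par H g Q ν ρ N) = ⊥ := by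
      rw [LinearMap.ker_eq_bot']
      intro x hx
      rw [LinearMap.comp_apply, Phi_eq_zero_iff] at hx
      exact par_inj hHm hH hν hνκ hρ
        (hinj _ (par_natDegree _ _ _ _ _ _ _) (par_wd _ _ _ _ _ _ _) (hrow x) hx)
    have h2 := b.linearIndependent.map' (Phi K r m Γ ∘ₗ par H g Q ν ρ N) h1
    exact h2

end Pool.Agent.Helper48.SQ
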