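import Pool.Agent.Helper48.SQ.Step

set_option autoImplicit false

/-! # Project SQ48 (helper48): the final germ `z = Γ(x)` -/

open Polynomial

namespace Pool.Agent.Helper48.SQ

open Pool.Agent.Helper41.Fat Pool.Agent.Helper7.NM

variable {K : Type*} [Field K]

theorem eq_zero_of_degreeLT_zero {p : K[X]} {n : ℕ} (hn : n = 0) (h : p ∈ degreeLT K n) :
    p = 0 := by
  subst hn
  rw [mem_degreeLT] at h
  by_contra h0
  rw [degree_eq_natDegree h0] at h
  have : p.natDegree < 0 := by exact_mod_cast h
  omega

theorem mul_mem_degreeLT {p q : K[X]} {a n : ℕ} (hp : p.natDegree ≤ a) (hq : q ∈ degreeLT K n) :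
    p * q ∈ degreeLT K (a + n) := by
  by_cases h0 : q = 0
  · rw [h0, mul_zero]
    exact Submodule.zero_mem _
  rw [mem_degreeLT, degree_eq_natDegree h0] at hq
  have h1 : q.natDegree < n := by exact_mod_cast hq
  rw [mem_degreeLT]
  refine lt_of_le_of_lt degree_le_natDegree ?_
  have h2 := natDegree_mul_le (p := p) (q := q)
  exact_mod_cast (by omega : (p * q).natDegree < a + n)

theorem of_mul_mem_degreeLT {p q : K[X]} {a n : ℕ} (hp0 : p ≠ 0) (hp : a ≤ p.natDegree)
    (h : p * q ∈ degreeLT K n) : q ∈ degreeLT K (n - a) := by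
  by_cases h0 : q = 0
  · rw [h0]
    exact Submodule.zero_mem _
  rw [mem_degreeLT, degree_eq_natDegree (mul_ne_zero hp0 h0), natDegree_mul hp0 h0] at h
  have h1 : p.natDegree + q.natDegree < n := by exact_mod_cast h
  rw [mem_degreeLT, degree_eq_natDegree h0]
  exact_mod_cast (by omega : q.natDegree < n - a)

/-- One division by `Γ - z`. -/
theorem row_div {Γ : K[X]} {a Q : ℕ} {M : ℕ → ℕ} (hΓ0 : Γ ≠ 0) (hΓ : Γ.natDegree = a)
    (hM : ∀ k < Q, M k ≤ M (k + 1)) {F F₁ : K[X][X]} (hF : F = (C Γ - X) * F₁)
    (h : ∀ k ≤ Q, F.coeff k ∈ degreeLT K (M k)) :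
    ∀ k ≤ Q, F₁.coeff k ∈ degreeLT K (M k - a) := by
  intro k
  induction k with
  | zero =>
    intro hk
    have h1 := h 0 hk
    rw [hF, mul_coeff_zero, coeff_sub, coeff_C_zero, coeff_X_zero, sub_zero] at h1
    exact of_mul_mem_degreeLT hΓ0 hΓ.ge h1
  | succ k ih =>
    intro hk
    have h1 := h (k + 1) hk
    rw [hF, sub_mul, coeff_sub, coeff_C_mul, coeff_X_mul] at h1
    have h2 : F₁.coeff k ∈ degreeLT K (M (k + 1)) :=
      degreeLT_mono ((Nat.sub_le _ _).trans (hM k (by omega))) (ih (by omega))
    have h3 := Submodule.add_mem _ h1 h2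
    rw [sub_add_cancel] at h3
    exact of_mul_mem_degreeLT hΓ0 hΓ.ge h3

theorem natDegree_CsubX_pow (Γ : K[X]) (i : ℕ) : ((C Γ - X : K[X][X]) ^ i).natDegree = i := by
  have h1 : (C Γ - X : K[X][X]) = -(X - C Γ) := by ring
  rw [natDegree_pow, h1, natDegree_neg, natDegree_X_sub_C, mul_one]

theorem neg_X_pow (i : ℕ) : (-X : K[X][X]) ^ i = C ((-1 : K[X]) ^ i) * X ^ i := by
  have h : (C ((-1 : K[X]) ^ i) : K[X][X]) = (-1) ^ i := by simp
  rw [h, neg_pow (X : K[X][X]) i]

theorem final_inj {r m a κ g Q : ℕ} {H G₂ : K[X]} {N q Y : ℕ → ℕ} (hHm : H.Monic)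
    (hH : H.natDegree = κ) (hG₂ : G₂.natDegree = a - κ) (hG₂0 : G₂ ≠ 0) (hκa : κ ≤ a) (hκ : 0 < κ)
    (hΓ0 : (H * G₂).coeff 0 ≠ 0) (hgm : g < m)
    (hNmono : ∀ k, 1 ≤ k → k < Q → N k ≤ N (k + 1)) (hN1 : κ * g + 1 ≤ N 1)
    (hstar : ∀ i ≤ g, ∀ S ∈ degreeLT K (Y i), (G₂ ^ i * S) %ₘ H ∈ degreeLT K (q i) →
      X ^ (r * (m - i)) ∣ S → S = 0)
    (hn0 : ∀ i ≤ g, κ * g + 1 - a * i ≤ Y i)
    (hn1 : ∀ i ≤ g, ∀ k, 1 ≤ k → k ≤ Q - i → a * i < N k → a * k + (N k - a * i) ≤ Y i)
    (hn2 : ∀ i, g < i → i < m → ∀ k₀, 1 ≤ k₀ → a * i < N k₀ → ∀ k, k₀ ≤ k → k ≤ Q - i →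
      a * (k - k₀) + (N k - a * i) ≤ r * (m - i))
    (hn3 : ∀ k, 1 ≤ k → k ≤ Q - m → N k ≤ a * m)
    {F : K[X][X]} (hFdeg : F.natDegree ≤ Q)
    (hF0 : F.coeff 0 ∈ degreeLT K (κ * g + 1))
    (hE : ∀ i ≤ g, ∀ A, H ^ i * A = F.coeff 0 → A %ₘ H ∈ degreeLT K (q i))
    (hFk : ∀ k, 1 ≤ k → k ≤ Q → F.coeff k ∈ degreeLT K (N k))
    (hcond : taylor (H * G₂) F ∈ cond K r m) : F = 0 := by
  classical
  set Γ : K[X] := H * G₂ with hΓdef
  have hΓne : Γ ≠ 0 := by
    intro h
    rw [h, coeff_zero] at hΓ0
    exact hΓ0 rfl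
  have hΓdeg : Γ.natDegree = a := by
    rw [hΓdef, natDegree_mul hHm.ne_zero hG₂0, hH, hG₂]
    omega
  let M : ℕ → ℕ := fun k => if k = 0 then κ * g + 1 else N k
  have hM0 : M 0 = κ * g + 1 := if_pos rfl
  have hMk : ∀ k, 1 ≤ k → M k = N k := fun k hk => if_neg (by omega)
  have hMmono : ∀ k < Q, M k ≤ M (k + 1) := by
    intro k hk
    rcases Nat.eq_zero_or_pos k with h | h
    · subst h
      rw [hM0, hMk _ le_rfl]
      exact hN1
    · rw [hMk k h, hMk _ (by omega)]
      exact hNmono k h hk
  by_contra hFne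
  -- the divisions
  have hdiv : ∀ i ≤ m, ∃ F₁ : K[X][X], F = (C Γ - X) ^ i * F₁ ∧
      ∀ k ≤ Q, F₁.coeff k ∈ degreeLT K (M k - a * i) := by
    intro i
    induction i with
    | zero =>
      intro _
      refine ⟨F, by rw [pow_zero, one_mul], fun k hk => ?_⟩
      rw [mul_zero, Nat.sub_zero]
      rcases Nat.eq_zero_or_pos k with h | h
      · subst h
        rw [hM0]
        exact hF0
      · rw [hMk k h]
        exact hFk k h hk
    | succ i ih =>
      intro hi
      obtain ⟨F₁, hF₁, hrow⟩ := ih (by omega)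
      have hF₁ne : F₁ ≠ 0 := by
        intro h
        rw [h, mul_zero] at hF₁
        exact hFne hF₁
      have hXdeg : ((C Γ - X : K[X][X]) ^ i).natDegree = i := natDegree_CsubX_pow Γ i
      have hpne : ((C Γ - X : K[X][X]) ^ i) ≠ 0 := by
        intro h
        rw [h, zero_mul] at hF₁
        exact hFne hF₁
      have hF₁deg : F₁.natDegree ≤ Q - i := by
        have h1 : F.natDegree = i + F₁.natDegree := by
          conv_lhs => rw [hF₁]
          rw [natDegree_mul hpne hF₁ne, hXdeg]
        omega
      -- the value at `Γ`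
      have hval : X ^ (r * (m - i)) ∣ F₁.eval Γ := by
        have h1 : taylor Γ F = (-X) ^ i * taylor Γ F₁ := by
          conv_lhs => rw [hF₁]
          rw [taylor_mul, taylor_pow, map_sub, taylor_C, taylor_X]
          congr 2
          ring
        have h2 := hcond i (by omega)
        have hneg : (-X : K[X][X]) ^ i = C ((-1 : K[X]) ^ i) * X ^ i := neg_X_pow i
        rw [h1, hneg, mul_assoc, coeff_C_mul, coeff_X_pow_mul',
          if_pos le_rfl, Nat.sub_self, taylor_coeff_zero] at h2
        have h3 : IsUnit ((-1 : K[X]) ^ i) := (isUnit_one.neg).pow i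
        exact (IsUnit.dvd_mul_left h3).1 h2
      have hev : F₁.eval Γ = ∑ k ∈ Finset.range (Q - i + 1), F₁.coeff k * Γ ^ k :=
        eval_eq_sum_range' (Nat.lt_succ_of_le hF₁deg) Γ
      have hzero : F₁.eval Γ = 0 := by
        by_cases hig : i ≤ g
        · -- low levels
          apply hstar i hig _ _ _ hval
          · rw [hev]
            refine Submodule.sum_mem _ fun k hk => ?_
            have hk' : k ≤ Q - i := Nat.lt_succ_iff.1 (Finset.mem_range.1 hk)
            by_cases hcase : a * i < M k
            · have h1 := hrow k (by omega)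
              rw [mul_comm]
              have h2 : (Γ ^ k).natDegree ≤ a * k := by
                rw [natDegree_pow, hΓdeg, mul_comm]
              refine degreeLT_mono ?_ (mul_mem_degreeLT h2 h1)
              rcases Nat.eq_zero_or_pos k with h | h
              · subst h
                rw [hM0, mul_zero, zero_add]
                exact hn0 i hig
              · rw [hMk k h] at hcase ⊢
                exact hn1 i hig k h hk' hcase
            · have h1 := eq_zero_of_degreeLT_zero (by omega) (hrow k (by omega))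
              rw [h1, zero_mul]
              exact Submodule.zero_mem _
          · have h1 : H ^ i * (G₂ ^ i * F₁.coeff 0) = F.coeff 0 := by
              conv_rhs => rw [hF₁]
              rw [mul_coeff_zero, coeff_zero_eq_eval_zero ((C Γ - X) ^ i), eval_pow, eval_sub,
                eval_C, eval_X, sub_zero, hΓdef, mul_pow]
              ring
            have h2 := hE i hig _ h1
            have h3 : G₂ ^ i * F₁.eval Γ = G₂ ^ i * F₁.coeff 0 + H * (G₂ ^ i * (G₂ *
                ∑ k ∈ Finset.range (Q - i), F₁.coeff (k + 1) * Γ ^ k)) := by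
              rw [hev, Finset.sum_range_succ', pow_zero, mul_one, mul_add, add_comm]
              congr 1
              rw [Finset.mul_sum, Finset.mul_sum, Finset.mul_sum, Finset.mul_sum]
              refine Finset.sum_congr rfl fun k _ => ?_
              rw [pow_succ, hΓdef]
              ring
            rw [h3, add_modByMonic, (modByMonic_eq_zero_iff_dvd hHm).2 (dvd_mul_right H _),
              add_zero]
            exact h2
        · -- the other levels
          rw [not_le] at hig
          have h00 : F₁.coeff 0 = 0 := by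
            apply eq_zero_of_degreeLT_zero _ (hrow 0 (Nat.zero_le _))
            rw [hM0]
            have h1 : κ * g ≤ a * g := Nat.mul_le_mul_right _ hκa
            have h2 : a * (g + 1) ≤ a * i := Nat.mul_le_mul_left _ hig
            have h3 : a * (g + 1) = a * g + a := by ring
            omega
          by_contra hne
          have hex : ∃ k, k ≤ Q - i ∧ F₁.coeff k ≠ 0 := by
            by_contra hcon
            push Not at hcon
            apply hne
            rw [hev]
            refine Finset.sum_eq_zero fun k hk => ?_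
            rw [hcon k (Nat.lt_succ_iff.1 (Finset.mem_range.1 hk)), zero_mul]
          obtain ⟨hk₀, hk₀ne⟩ := Nat.find_spec hex
          set k₀ := Nat.find hex with hk₀def
          have hmin : ∀ k < k₀, F₁.coeff k = 0 := by
            intro k hk
            have h1 := Nat.find_min hex hk
            push Not at h1
            exact h1 (by omega)
          have hk₀1 : 1 ≤ k₀ := by
            by_contra h
            have : k₀ = 0 := by omega
            rw [this] at hk₀ne
            exact hk₀ne h00
          have hNk₀ : a * i < N k₀ := by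
            by_contra h
            rw [not_lt] at h
            apply hk₀ne
            apply eq_zero_of_degreeLT_zero _ (hrow k₀ (by omega))
            rw [hMk k₀ hk₀1]
            omega
          have hfac : F₁.eval Γ = Γ ^ k₀ * ∑ k ∈ Finset.range (Q - i + 1 - k₀),
              F₁.coeff (k₀ + k) * Γ ^ k := by
            rw [hev]
            have h1 : Q - i + 1 = k₀ + (Q - i + 1 - k₀) := by omega
            conv_lhs => rw [h1, Finset.sum_range_add]
            rw [Finset.sum_eq_zero, zero_add, Finset.mul_sum]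
            · refine Finset.sum_congr rfl fun k _ => ?_
              rw [pow_add]
              ring
            · intro k hk
              rw [hmin k (Finset.mem_range.1 hk), zero_mul]
          have hcopX : IsCoprime ((X : K[X]) ^ (r * (m - i))) (Γ ^ k₀) := by
            refine IsCoprime.pow ?_
            refine (irreducible_X.coprime_iff_not_dvd).2 ?_
            rw [X_dvd_iff]
            exact hΓ0
          rw [hfac] at hval
          have hval' := hcopX.dvd_of_dvd_mul_left hval
          have hSdeg : (∑ k ∈ Finset.range (Q - i + 1 - k₀), F₁.coeff (k₀ + k) * Γ ^ k) ∈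
              degreeLT K (r * (m - i)) := by
            refine Submodule.sum_mem _ fun k hk => ?_
            rw [Finset.mem_range] at hk
            have h1 := hrow (k₀ + k) (by omega)
            rw [hMk _ (by omega)] at h1
            rw [mul_comm (F₁.coeff (k₀ + k))]
            have h2 : (Γ ^ k).natDegree ≤ a * k := by
              rw [natDegree_pow, hΓdeg, mul_comm]
            have h3 := hn2 i hig (by omega) k₀ hk₀1 hNk₀ (k₀ + k) (by omega) (by omega)
            rw [Nat.add_sub_cancel_left] at h3
            exact degreeLT_mono h3 (mul_mem_degreeLT h2 h1)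
          have hS0 : (∑ k ∈ Finset.range (Q - i + 1 - k₀), F₁.coeff (k₀ + k) * Γ ^ k) = 0 := by
            by_contra h0
            obtain ⟨B, hB⟩ := hval'
            have hBne : B ≠ 0 := by
              intro h
              rw [h, mul_zero] at hB
              exact h0 hB
            rw [mem_degreeLT, degree_eq_natDegree h0, hB, natDegree_mul (pow_ne_zero _ X_ne_zero)
              hBne, natDegree_X_pow] at hSdeg
            have : r * (m - i) + B.natDegree < r * (m - i) := by exact_mod_cast hSdeg
            omega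
          apply hne
          rw [hfac, hS0, mul_zero]
      obtain ⟨F₂, hF₂⟩ := dvd_iff_isRoot.2 hzero
      have hF₂' : F₁ = (C Γ - X) * (-F₂) := by
        rw [hF₂]
        ring
      refine ⟨-F₂, ?_, ?_⟩
      · rw [pow_succ, mul_assoc, ← hF₂']
        exact hF₁
      · have h1 : ∀ k < Q, M k - a * i ≤ M (k + 1) - a * i := fun k hk =>
          Nat.sub_le_sub_right (hMmono k hk) _
        have h2 := row_div hΓne hΓdeg h1 hF₂' hrow
        intro k hk
        have h3 := h2 k hk
        have h4 : M k - a * i - a = M k - a * (i + 1) := by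
          rw [Nat.sub_sub]
          congr 1
        rwa [h4] at h3
  obtain ⟨F₁, hF₁, hrow⟩ := hdiv m le_rfl
  have hF₁ne : F₁ ≠ 0 := by
    intro h
    rw [h, mul_zero] at hF₁
    exact hFne hF₁
  have hpne : ((C Γ - X : K[X][X]) ^ m) ≠ 0 := by
    intro h
    rw [h, zero_mul] at hF₁
    exact hFne hF₁
  have hXdeg : ((C Γ - X : K[X][X]) ^ m).natDegree = m := natDegree_CsubX_pow Γ m
  have hF₁deg : F₁.natDegree ≤ Q - m := by
    have h1 : F.natDegree = m + F₁.natDegree := by
      conv_lhs => rw [hF₁]
      rw [natDegree_mul hpne hF₁ne, hXdeg]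
    omega
  apply hF₁ne
  ext1 k
  rw [coeff_zero]
  by_cases hk : k ≤ Q - m
  · apply eq_zero_of_degreeLT_zero _ (hrow k (by omega))
    rcases Nat.eq_zero_or_pos k with h | h
    · subst h
      rw [hM0]
      have h1 : κ * g ≤ a * g := Nat.mul_le_mul_right _ hκa
      have h2 : a * (g + 1) ≤ a * m := Nat.mul_le_mul_left _ hgm
      have h3 : a * (g + 1) = a * g + a := by ring
      omega
    · rw [hMk k h]
      have := hn3 k h hk
      omega
  · exact coeff_eq_zero_of_natDegree_lt (by omega)

end Pool.Agent.Helper48.SQ
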