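import Pool.Agent.Helper48.SQ.Step
import Pool.Agent.Helper7.FatScale

set_option autoImplicit false

/-! # Project SQ48 (helper48): from the curve `y G(x) = H(x)` to the triangle -/

open Polynomial

namespace Pool.Agent.Helper48.SQ

open Pool.Agent.Helper41.Fat Pool.Agent.Helper7.NM

variable {K : Type*} [Field K]

theorem cond_of_dvd {r m : ℕ} {P : K[X][X]} (h : C (X ^ (r * m) : K[X]) ∣ P) :
    P ∈ cond K r m := by
  rw [C_dvd_iff_dvd_coeff] at h
  intro j _
  exact (pow_dvd_pow _ (Nat.mul_le_mul_left r (Nat.sub_le m j))).trans (h j)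

theorem cond_C_mul {r m : ℕ} {P : K[X][X]} (p : K[X]) (h : P ∈ cond K r m) :
    C p * P ∈ cond K r m := by
  intro j hj
  rw [coeff_C_mul]
  exact (h j hj).mul_left p

theorem dvd_taylor {r m : ℕ} {P : K[X][X]} (η : K[X]) (h : C (X ^ (r * m) : K[X]) ∣ P) :
    C (X ^ (r * m) : K[X]) ∣ taylor η P := by
  obtain ⟨A, rfl⟩ := h
  rw [taylor_mul, taylor_C]
  exact dvd_mul_right _ _

theorem taylor_congr {r m : ℕ} {η η' : K[X]} (h : X ^ (r * m) ∣ η - η') {P : K[X][X]}
    (hP : taylor η P ∈ cond K r m) : taylor η' P ∈ cond K r m := by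
  have h1 : (X + C η : K[X][X]) - (X + C η') ∣ (P.map C).eval (X + C η) -
      (P.map C).eval (X + C η') := sub_dvd_eval_sub _ _ _
  have h2 : ∀ q : K[X][X], (P.map C).eval q = P.comp q := by
    intro q
    rw [eval_map]
    rfl
  rw [h2, h2, ← taylor_apply, ← taylor_apply] at h1
  have h3 : (X + C η : K[X][X]) - (X + C η') = C (η - η') := by
    rw [C_sub]
    ring
  rw [h3] at h1
  have h4 : C (X ^ (r * m) : K[X]) ∣ taylor η P - taylor η' P :=
    (_root_.map_dvd C h).trans h1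
  have h5 := Submodule.sub_mem _ hP (cond_of_dvd h4)
  rwa [sub_sub_cancel] at h5

theorem pow_sub_dvd {S : Type*} [CommRing S] {p a b : S} (h : p ∣ a - b) (c : ℕ) :
    p ∣ a ^ c - b ^ c := h.trans (sub_dvd_pow_sub_pow a b c)

theorem cond_comp {r m : ℕ} {β : K[X]} (hβ : β.coeff 0 ≠ 0) {P : K[X][X]}
    (h : P.comp (C β * X) ∈ cond K r m) : P ∈ cond K r m := by
  intro j hj
  have h1 := h j hj
  rw [comp_C_mul_X_coeff] at h1
  refine IsCoprime.dvd_of_dvd_mul_right ?_ h1
  refine IsCoprime.pow ?_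
  refine (irreducible_X.coprime_iff_not_dvd).2 ?_
  rw [X_dvd_iff]
  exact hβ

theorem reflect_sum_range {S : Type*} [CommRing S] {P : S[X]} {Q : ℕ} (h : P.natDegree ≤ Q) :
    reflect Q P = ∑ k ∈ Finset.range (Q + 1), C (P.coeff k) * X ^ (Q - k) := by
  ext n
  rw [coeff_reflect, finsetSum_coeff]
  by_cases hn : n ≤ Q
  · rw [revAt_le hn, Finset.sum_eq_single (Q - n)]
    · rw [coeff_C_mul_X_pow, if_pos (by omega)]
    · intro k hk hne
      rw [Finset.mem_range] at hk
      rw [coeff_C_mul_X_pow, if_neg (by omega)]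
    · intro hk
      exact absurd (Finset.mem_range.2 (by omega)) hk
  · rw [revAt_eq_self_of_lt (by omega), coeff_eq_zero_of_natDegree_lt (by omega)]
    refine (Finset.sum_eq_zero fun k _ => ?_).symm
    rw [coeff_C_mul_X_pow, if_neg (by omega)]

/-- The limit vector is the transported one, up to units and modulo `X ^ (r m)`. -/
theorem limit_dvd {a g Q N : ℕ} {G H U : K[X]} (hU : X ^ N ∣ G * U - 1)
    {P : K[X][X]} (hP : P.natDegree ≤ Q) (c : ℕ → ℕ → K[X])
    (hc : ∀ k ≤ Q, P.coeff k = ∑ l ∈ Finset.range (g + a * k + 1),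
      H ^ (g + a * k - l) * G ^ l * c k l) :
    C (X ^ N : K[X]) ∣ C (G ^ (a * Q + g)) * (∑ k ∈ Finset.range (Q + 1),
      (C (G ^ (Q - k)) * X ^ (Q - k)) * ∑ l ∈ Finset.range (g + a * k + 1),
        C (U * H) ^ (g + a * k - l) * C (c k l)) -
      (reflect Q P).comp (C (G ^ (a + 1)) * X) := by
  rw [reflect_sum_range hP]
  have h1 : (∑ k ∈ Finset.range (Q + 1), C (P.coeff k) * X ^ (Q - k) : K[X][X]).comp
      (C (G ^ (a + 1)) * X) = ∑ k ∈ Finset.range (Q + 1),
        C (P.coeff k * (G ^ (a + 1)) ^ (Q - k)) * X ^ (Q - k) := by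
    rw [Polynomial.sum_comp]
    refine Finset.sum_congr rfl fun k _ => ?_
    rw [mul_comp, C_comp, X_pow_comp, mul_pow, ← C_pow, C_mul]
    ring
  rw [h1, Finset.mul_sum, ← Finset.sum_sub_distrib]
  refine Finset.dvd_sum fun k hk => ?_
  have hk' : k ≤ Q := Nat.lt_succ_iff.1 (Finset.mem_range.1 hk)
  have h2 : C (G ^ (a * Q + g)) * ((C (G ^ (Q - k)) * X ^ (Q - k)) *
      ∑ l ∈ Finset.range (g + a * k + 1), C (U * H) ^ (g + a * k - l) * C (c k l)) -
      C (P.coeff k * (G ^ (a + 1)) ^ (Q - k)) * X ^ (Q - k)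
      = C (∑ l ∈ Finset.range (g + a * k + 1), (H ^ (g + a * k - l) * c k l *
        G ^ ((a + 1) * (Q - k) + l)) * ((G * U) ^ (g + a * k - l) - 1)) * X ^ (Q - k) := by
    rw [hc k hk', Finset.sum_mul, Finset.mul_sum, Finset.mul_sum, map_sum, Finset.sum_mul,
      map_sum, Finset.sum_mul, ← Finset.sum_sub_distrib]
    refine Finset.sum_congr rfl fun l hl => ?_
    rw [Finset.mem_range] at hl
    obtain ⟨j, hj⟩ : ∃ j, g + a * k = l + j := ⟨g + a * k - l, by omega⟩
    obtain ⟨i, hi⟩ : ∃ i, Q = k + i := ⟨Q - k, by omega⟩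
    have e1 : g + a * k - l = j := by omega
    have e2 : Q - k = i := by omega
    have e3 : a * Q + g = a * i + (l + j) := by rw [← hj, hi]; ring
    rw [e1, e2, e3]
    simp only [C_mul, C_pow, C_sub, C_1]
    ring
  rw [h2]
  refine Dvd.dvd.mul_right (_root_.map_dvd C ?_) _
  refine Finset.dvd_sum fun l _ => Dvd.dvd.mul_left ?_ _
  have h3 := pow_sub_dvd hU (g + a * k - l)
  rwa [one_pow] at h3

/-- The transported vectors, modulo `X ^ (r m)`. -/
theorem Gt_dvd {a g Q N : ℕ} {G H U : K[X]} (hU : X ^ N ∣ G * U - 1) {ω : K} (hω : ω ≠ 0)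
    (c : ℕ → ℕ → K[X]) :
    C (X ^ N : K[X]) ∣ Gt 1 ω (U * H) (∑ k ∈ Finset.range (Q + 1),
      (C (C ((ω ^ (Q - k))⁻¹)) * (C G * X - C H) ^ (Q - k)) *
        ∑ l ∈ Finset.range (g + a * k + 1), X ^ (g + a * k - l) * C (c k l)) -
      ∑ k ∈ Finset.range (Q + 1), (C (G ^ (Q - k)) * X ^ (Q - k)) *
        ∑ l ∈ Finset.range (g + a * k + 1),
          (C (U * H) + C (C ω) * X) ^ (g + a * k - l) * C (c k l) := by
  have hc1 : ∀ p : K[X], Gt 1 ω (U * H) (C p) = C p := by
    intro p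
    rw [Gt_C, C_1, one_mul, comp_X]
  rw [map_sum, ← Finset.sum_sub_distrib]
  refine Finset.dvd_sum fun k _ => ?_
  have h1 : Gt 1 ω (U * H) ((C (C ((ω ^ (Q - k))⁻¹)) * (C G * X - C H) ^ (Q - k)) *
        ∑ l ∈ Finset.range (g + a * k + 1), X ^ (g + a * k - l) * C (c k l))
      = (C (C ((ω ^ (Q - k))⁻¹)) * (C ((G * U - 1) * H) + C (C ω) * (C G * X)) ^ (Q - k)) *
        ∑ l ∈ Finset.range (g + a * k + 1),
          (C (U * H) + C (C ω) * X) ^ (g + a * k - l) * C (c k l) := by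
    rw [map_mul, map_mul, map_pow, map_sub, map_mul, hc1, hc1, hc1, Gt_X, map_sum]
    congr 1
    · congr 2
      simp only [C_mul, C_sub, C_1]
      ring
    · refine Finset.sum_congr rfl fun l _ => ?_
      rw [map_mul, map_pow, Gt_X, hc1]
  rw [h1, ← sub_mul]
  refine Dvd.dvd.mul_right ?_ _
  have h2 : (C (G ^ (Q - k)) * X ^ (Q - k) : K[X][X]) =
      C (C ((ω ^ (Q - k))⁻¹)) * (C (C ω) * (C G * X)) ^ (Q - k) := by
    rw [mul_pow, ← mul_assoc, ← C_pow, ← C_pow, ← C_mul, ← C_mul,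
      inv_mul_cancel₀ (pow_ne_zero _ hω), C_1, C_1, one_mul, mul_pow, C_pow]
  rw [h2, ← mul_sub]
  refine Dvd.dvd.mul_left (pow_sub_dvd ?_ _) _
  rw [add_sub_cancel_right]
  exact _root_.map_dvd C (hU.mul_right H)

theorem f_mem_rows {a : ℕ} {G H : K[X]} (ha : 1 ≤ a) (hG : G.natDegree ≤ a - 1)
    (hH : H.natDegree ≤ a) : (C G * X - C H : K[X][X]) ∈ rows K (fun b => a + 1 - b) := by
  rw [Pool.Agent.Helper7.Scale.mem_rows_iff]
  intro j i hne
  rcases j with _ | _ | j
  · rw [coeff_sub, mul_coeff_zero, coeff_X_zero, mul_zero, coeff_C_zero, zero_sub, coeff_neg] at hne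
    have := le_natDegree_of_ne_zero (neg_ne_zero.1 hne)
    omega
  · rw [zero_add, coeff_sub, coeff_C_mul, coeff_X_one, mul_one, coeff_C_of_ne_zero one_ne_zero,
      sub_zero] at hne
    have := le_natDegree_of_ne_zero hne
    omega
  · exfalso
    apply hne
    rw [coeff_sub, coeff_C_mul, coeff_X_of_ne_one (by omega), mul_zero,
      coeff_C_of_ne_zero (by omega), sub_zero, coeff_zero]

theorem A_mem_rows {e : ℕ} (c : ℕ → K[X]) (hc : ∀ l ≤ e, c l ∈ degreeLT K (l + 1)) :
    (∑ l ∈ Finset.range (e + 1), X ^ (e - l) * C (c l) : K[X][X]) ∈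
      rows K (fun b => e + 1 - b) := by
  refine Submodule.sum_mem _ fun l hl => ?_
  rw [Finset.mem_range] at hl
  rw [mul_comm]
  apply mono_mem_rows
  have : e + 1 - (e - l) = l + 1 := by omega
  rw [this]
  exact hc l (by omega)

/-- **From the curve `y G(x) = H(x)` of degree `a` to the triangle.** -/
theorem good_of_curve [Infinite K] {r m Q R a g : ℕ} {Γ G H : K[X]} (ha : 1 ≤ a)
    (hG : G.natDegree ≤ a - 1) (hG0 : G.coeff 0 ≠ 0) (hH : H.natDegree ≤ a)
    (hΓ : Γ.coeff 0 ≠ 0) (h : GoodS r m Γ (fun k => Wf H G (g + a * k)) Q R) :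
    Good K r m (fun b => a * Q + g + 1 - b) R := by
  classical
  obtain ⟨w, hw, hli⟩ := h
  obtain ⟨θ, hθ⟩ := exists_inv (r * m) Γ hΓ
  obtain ⟨U, hU'⟩ := exists_inv (r * m) G hG0
  have hU : X ^ (r * m) ∣ G * U - 1 := by
    have := hU'.neg_right
    rwa [neg_sub] at this
  have hsum : ∀ (η : K[X]) (y : Fin R → K[X][X]) (α : Fin R → K),
      ∑ i, α i • Phi K r m η (y i) = Phi K r m η (∑ i, α i • y i) := by
    intro η y α
    simp only [map_sum, map_smul]
  -- the digits
  have hdig : ∀ (i : Fin R) (k : ℕ), ∃ c : ℕ → K[X], k ≤ Q →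
      (∀ l ≤ g + a * k, c l ∈ degreeLT K (l + 1)) ∧ (w i).coeff k =
        ∑ l ∈ Finset.range (g + a * k + 1), H ^ (g + a * k - l) * G ^ l * c l := by
    intro i k
    by_cases hk : k ≤ Q
    · obtain ⟨c, hc⟩ := (hw i).2 k hk
      exact ⟨c, fun _ => hc⟩
    · exact ⟨fun _ => 0, fun h => absurd h hk⟩
  choose c hc using hdig
  -- the family
  let W : Fin R → K[X][X][X] := fun i => ∑ k ∈ Finset.range (Q + 1),
    C (C (G ^ (Q - k)) * X ^ (Q - k) : K[X][X]) * ∑ l ∈ Finset.range (g + a * k + 1),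
      (C (C (U * H)) + X * C X) ^ (g + a * k - l) * C (C (c i k l))
  have hWe : ∀ i (ω : K), (W i).eval (algebraMap K K[X][X] ω) =
      ∑ k ∈ Finset.range (Q + 1), (C (G ^ (Q - k)) * X ^ (Q - k)) *
        ∑ l ∈ Finset.range (g + a * k + 1),
          (C (U * H) + C (C ω) * X) ^ (g + a * k - l) * C (c i k l) := by
    intro i ω
    simp only [W, eval_finsetSum, eval_mul, eval_pow, eval_add, eval_C, eval_X, algebraMap_eq_CC]
  have hW0 : ∀ i, (W i).coeff 0 = ∑ k ∈ Finset.range (Q + 1), (C (G ^ (Q - k)) * X ^ (Q - k)) *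
        ∑ l ∈ Finset.range (g + a * k + 1), C (U * H) ^ (g + a * k - l) * C (c i k l) := by
    intro i
    have h1 := hWe i 0
    rw [map_zero, ← coeff_zero_eq_eval_zero] at h1
    rw [h1]
    simp only [C_0, zero_mul, add_zero]
  set β : K[X] := G ^ (a + 1) with hβ
  set θ' : K[X] := U ^ (a + 1) * θ with hθ'
  -- independence of the limits
  have hlim : LinearIndependent K (fun i => Phi K r m θ' ((W i).coeff 0)) := by
    rw [Fintype.linearIndependent_iff] at hli ⊢
    intro α hα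
    apply hli α
    rw [hsum] at hα ⊢
    rw [Phi_eq_zero_iff] at hα ⊢
    set P : K[X][X] := ∑ i, α i • w i with hP
    have hPdeg : P.natDegree ≤ Q := by
      rw [hP, natDegree_le_iff_coeff_eq_zero]
      intro N hN
      rw [finsetSum_coeff]
      refine Finset.sum_eq_zero fun i _ => ?_
      rw [coeff_smul, coeff_eq_zero_of_natDegree_lt (lt_of_le_of_lt (hw i).1 hN), smul_zero]
    have h1 : C (X ^ (r * m) : K[X]) ∣ C (G ^ (a * Q + g)) * (∑ i, α i • (W i).coeff 0) -
        (reflect Q P).comp (C β * X) := by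
      have h2 : (reflect Q P).comp (C β * X) =
          ∑ i, α i • (reflect Q (w i)).comp (C β * X) := by
        have h3 : reflect Q P = ∑ i, α i • reflect Q (w i) := by
          ext n : 1
          simp only [hP, coeff_reflect, finsetSum_coeff, coeff_smul]
        rw [h3, Polynomial.sum_comp]
        refine Finset.sum_congr rfl fun i _ => ?_
        rw [smul_eq_CC, smul_eq_CC, mul_comp, C_comp]
      rw [h2, Finset.mul_sum, ← Finset.sum_sub_distrib]
      refine Finset.dvd_sum fun i _ => ?_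
      rw [mul_smul_comm, ← smul_sub, smul_eq_CC]
      refine Dvd.dvd.mul_left ?_ _
      rw [hW0 i]
      exact limit_dvd hU (hw i).1 (c i) fun k hk => (hc i k hk).2
    have h4 : taylor θ' ((reflect Q P).comp (C β * X)) ∈ cond K r m := by
      have h5 := cond_of_dvd (dvd_taylor θ' h1)
      have h6 : taylor θ' (C (G ^ (a * Q + g)) * (∑ i, α i • (W i).coeff 0)) ∈ cond K r m := by
        rw [taylor_mul, taylor_C]
        exact cond_C_mul _ hα
      rw [map_sub] at h5
      have h7 := Submodule.sub_mem _ h6 h5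
      rwa [sub_sub_cancel] at h7
    have h8 : taylor θ' ((reflect Q P).comp (C β * X)) =
        (taylor (β * θ') (reflect Q P)).comp (C β * X) := by
      rw [taylor_apply, taylor_apply, comp_assoc, comp_assoc, mul_comp, C_comp, X_comp, add_comp,
        X_comp, C_comp, C_mul (a := β), mul_add]
    have hβ0 : β.coeff 0 ≠ 0 := by
      rw [hβ, coeff_zero_eq_eval_zero, eval_pow, ← coeff_zero_eq_eval_zero]
      exact pow_ne_zero _ hG0
    rw [h8] at h4
    have h9 := cond_comp hβ0 h4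
    have h10 : X ^ (r * m) ∣ β * θ' - θ := by
      have h11 : β * θ' - θ = ((G * U) ^ (a + 1) - 1) * θ := by
        rw [hβ, hθ', mul_pow]
        ring
      rw [h11]
      refine Dvd.dvd.mul_right ?_ _
      have h12 := pow_sub_dvd hU (a + 1)
      rwa [one_pow] at h12
    have h13 := taylor_congr h10 h9
    have h14 : reflect Q (reflect Q P) = P := by
      ext n : 1
      simp only [coeff_reflect, revAt_invol]
    rw [← h14]
    refine flip_cond (θ := Γ) (η := θ) hθ ?_ h13
    rw [natDegree_le_iff_coeff_eq_zero]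
    intro N hN
    rw [coeff_reflect, revAt_eq_self_of_lt hN, coeff_eq_zero_of_natDegree_lt (by omega)]
  have hfin := finite_bad (Phi K r m θ') W hlim
  obtain ⟨ω, hω⟩ := (hfin.union (Set.finite_singleton (0 : K))).exists_notMem
  simp only [Set.mem_union, Set.mem_ofPred_eq, Set.mem_singleton_iff, not_or, not_not] at hω
  obtain ⟨hω1, hω0⟩ := hω
  let z : Fin R → K[X][X] := fun i => ∑ k ∈ Finset.range (Q + 1),
      (C (C ((ω ^ (Q - k))⁻¹)) * (C G * X - C H) ^ (Q - k)) *
        ∑ l ∈ Finset.range (g + a * k + 1), X ^ (g + a * k - l) * C (c i k l)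
  have hz : ∀ i, Phi K r m θ' (Gt 1 ω (U * H) (z i)) =
      Phi K r m θ' ((W i).eval (algebraMap K K[X][X] ω)) := by
    intro i
    rw [← sub_eq_zero, ← map_sub, Phi_eq_zero_iff, hWe i ω]
    exact cond_of_dvd (dvd_taylor θ' (Gt_dvd hU hω0 (c i)))
  refine ⟨U * H + C ω * θ', z, ?_, ?_⟩
  · intro i
    refine Submodule.sum_mem _ fun k hk => ?_
    have hk' : k ≤ Q := Nat.lt_succ_iff.1 (Finset.mem_range.1 hk)
    have h1 := Pool.Agent.Helper7.Scale.rows_pow (f_mem_rows ha hG hH) (Q - k)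
    have h2 := A_mem_rows (e := g + a * k) (c i k) (hc i k hk').1
    have h3 := Pool.Agent.Helper7.Scale.rows_mul h1 h2
    have h4 : (Q - k) * a + (g + a * k) = a * Q + g := by
      obtain ⟨i, hi⟩ : ∃ i, Q = k + i := ⟨Q - k, by omega⟩
      have : Q - k = i := by omega
      rw [this, hi]
      ring
    rw [h4] at h3
    rw [mul_assoc, ← smul_eq_CC]
    exact Submodule.smul_mem _ _ h3
  · apply transport (t := 1) (s := ω) (g := U * H) (η' := θ')
    · rw [C_1, one_mul, comp_X]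
    · simpa only [hz] using hω1

end Pool.Agent.Helper48.SQ
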