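import Pool.Agent.Helper48.SQ.Num
import Pool.Agent.Helper48.SQ.Start
import Pool.Agent.Helper6.SQ.Main

set_option autoImplicit false

/-! # Project SQ48 (helper48), MP_e6aa12_ag: all squares, every characteristic -/

open Polynomial

namespace Pool.Agent.Helper48.SQ

open Pool.Agent.Helper41.Fat Pool.Agent.Helper7.NM

variable {K : Type*} [Field K]

theorem GoodS.mono {r m Q R : ℕ} {θ : K[X]} {S S' : ℕ → K[X] → Prop}
    (h : GoodS r m θ S Q R) (hS : ∀ k ≤ Q, ∀ P, S k P → S' k P) : GoodS r m θ S' Q R := by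
  obtain ⟨w, hw, hli⟩ := h
  exact ⟨w, fun i => ⟨(hw i).1, fun k hk => hS k hk _ ((hw i).2 k hk)⟩, hli⟩

/-- The number of coefficients of row `k ≥ 1`. -/
def Nk (t g k : ℕ) : ℕ := (2 * t + 3) * (g + (2 * t + 3) * k - t)

theorem Nk_mono (t g : ℕ) {k l : ℕ} (h : k ≤ l) : Nk t g k ≤ Nk t g l := by
  have h1 : (2 * t + 3) * k ≤ (2 * t + 3) * l := Nat.mul_le_mul_left _ h
  exact Nat.mul_le_mul_left _ (by omega)

/-- The bound for level `i`. -/
def Yi (t g Q i : ℕ) : ℕ := (2 * t + 3) * (Q - i) + (Nk t g (Q - i) - (2 * t + 3) * i)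

theorem level {t g Q m i : ℕ} (hQ : (2 * t + 3) * Q + g = (2 * t + 4) * m + t) (hi : i ≤ m)
    (hiQ : i ≤ Q) : Nk t g (Q - i) = (2 * t + 3) * ((2 * t + 4) * (m - i)) + (2 * t + 3) * i ∧
      Yi t g Q i + g = (2 * t + 4) ^ 2 * (m - i) + t + i := by
  obtain ⟨m', rfl⟩ : ∃ m', m = i + m' := ⟨m - i, by omega⟩
  obtain ⟨Q', rfl⟩ : ∃ Q', Q = i + Q' := ⟨Q - i, by omega⟩
  have h1 : (2 * t + 3) * Q' + g = (2 * t + 4) * m' + t + i := by nlinarith
  have h2 : Nk t g (i + Q' - i) = (2 * t + 3) * ((2 * t + 4) * m') + (2 * t + 3) * i := by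
    rw [Nat.add_sub_cancel_left, Nk]
    have h3 : g + (2 * t + 3) * Q' - t = (2 * t + 4) * m' + i := by omega
    rw [h3, mul_add]
  rw [Yi, h2, Nat.add_sub_cancel_left, Nat.add_sub_cancel_left, Nat.add_sub_cancel]
  refine ⟨rfl, ?_⟩
  have h4 : (2 * t + 3) * Q' + (2 * t + 3) * ((2 * t + 4) * m') + g =
      ((2 * t + 3) * Q' + g) + (2 * t + 3) * ((2 * t + 4) * m') := by ring
  rw [h4, h1]
  ring

theorem even_case [Infinite K] {t m Q g : ℕ} (ht : 2 ≤ t) (hg : g < 2 * t + 3)
    (hm : (t + 1) * (t + 2) < m) (hQ : (2 * t + 3) * Q + g = (2 * t + 4) * m + t) :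
    Good K ((2 * t + 4) ^ 2) m (fun b => (2 * t + 3) * Q + g + 1 - b)
      (tri (g + 1) + ∑ k ∈ Finset.range Q, Nk t g (k + 1)) := by
  obtain ⟨κ, ν, par⟩ := exists_params ht (show g ≤ 2 * t + 2 by omega)
  have hκpos := par.κpos
  have hκle := par.κle
  have hνle := par.νle
  set ρ := tri (g + 1) - tri ν with hρ
  have hgm : g + 1 < m := by nlinarith
  have hmQ : m ≤ Q := by
    by_contra h
    have h1 : (2 * t + 3) * (Q + 1) ≤ (2 * t + 3) * m := Nat.mul_le_mul_left _ (by omega)
    have h2 : (2 * t + 4) * m = (2 * t + 3) * m + m := by ring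
    have h3 : (2 * t + 3) * (Q + 1) = (2 * t + 3) * Q + (2 * t + 3) := by ring
    omega
  -- the factors of the germ
  obtain ⟨H, G₂, hHm, hH, hG₂, hG₂ne, hΓ0, hstar⟩ := exists_HG (K := K) (κ := κ)
    (b := 2 * t + 3 - κ) (g := g) (r := (2 * t + 4) ^ 2) (m := m) (by omega)
    (qd κ g ν ρ) (Yi t g Q) (by
      intro i hi
      by_cases hc : i < g + 1 - ν
      · exact qd_low_le hc
      · rw [qd_top hc]
        have := par.νκ
        omega) (by
      intro i hi
      rw [Yi]
      have h1 : (2 * t + 3) * 1 ≤ (2 * t + 3) * (Q - i) := Nat.mul_le_mul_left _ (by omega)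
      omega) (by
      intro i hi
      have h1 := (level hQ (show i ≤ m by omega) (by omega)).2
      have h2 : qd κ g ν ρ i + t + i ≤ g + κ := par.qle i hi
      omega)
  -- injectivity
  have hinj : ∀ F : K[X][X], F.natDegree ≤ Q → Wd H 1 g ν ρ (F.coeff 0) →
      (∀ k, 1 ≤ k → k ≤ Q → F.coeff k ∈ degreeLT K (Nk t g k)) →
      taylor (H * G₂) F ∈ cond K ((2 * t + 4) ^ 2) m → F = 0 := by
    intro F hF hF0 hFk hcond
    refine final_inj (a := 2 * t + 3) (κ := κ) (g := g) (N := Nk t g) (q := qd κ g ν ρ)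
      (Y := Yi t g Q) hHm hH hG₂ hG₂ne (by omega) hκpos hΓ0 (by omega)
      (fun k _ _ => Nk_mono t g (Nat.le_succ k)) ?_ hstar ?_ ?_ ?_ ?_ hF
      (corner_deg hH hκpos hνle par.ρle' hF0)
      (corner_mod hHm hH hνle par.νκ par.ρle hF0) hFk hcond
    · rw [Nk]
      have h1 : g + (2 * t + 3) * 1 - t = g + (t + 3) := by omega
      rw [h1]
      have h2 : κ * g ≤ (2 * t + 3) * g := Nat.mul_le_mul_right _ (by omega)
      have h3 : (2 * t + 3) * (g + (t + 3)) = (2 * t + 3) * g + (2 * t + 3) * (t + 3) := by ring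
      have h4 : 1 ≤ (2 * t + 3) * (t + 3) := Nat.mul_pos (by omega) (by omega)
      omega
    · intro i hi
      obtain ⟨h1, h2⟩ := level hQ (show i ≤ m by omega) (by omega)
      rw [Yi, h1, Nat.add_sub_cancel]
      have h3 : (2 * t + 3) * ((2 * t + 4) * 1) ≤ (2 * t + 3) * ((2 * t + 4) * (m - i)) :=
        Nat.mul_le_mul_left _ (Nat.mul_le_mul_left _ (by omega))
      have h4 : κ * g ≤ (2 * t + 2) * (2 * t + 2) := Nat.mul_le_mul hκle (by omega)
      have h5 : (2 * t + 2) * (2 * t + 2) + 1 ≤ (2 * t + 3) * ((2 * t + 4) * 1) := by nlinarith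
      omega
    · intro i hi k hk hkQ _
      rw [Yi]
      have h1 := Nk_mono t g hkQ
      have h2 : (2 * t + 3) * k ≤ (2 * t + 3) * (Q - i) := Nat.mul_le_mul_left _ hkQ
      omega
    · intro i hi him k₀ hk₀ hN k hk hkQ
      have h1 := (level hQ (show i ≤ m by omega) (by omega)).2
      rw [Yi] at h1
      have h2 := Nk_mono t g hkQ
      have h3 : (2 * t + 3) * k ≤ (2 * t + 3) * (Q - i) := Nat.mul_le_mul_left _ hkQ
      have h4 : t + i < g + (2 * t + 3) * k₀ := by
        rw [Nk] at hN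
        have := lt_of_mul_lt_mul_left hN (Nat.zero_le _)
        omega
      have h5 : (2 * t + 3) * (k - k₀) + (2 * t + 3) * k₀ = (2 * t + 3) * k := by
        rw [← mul_add, Nat.sub_add_cancel hk]
      omega
    · intro k hk hkQ
      have h1 := (level hQ (le_refl m) hmQ).1
      have h2 := Nk_mono t g hkQ
      rw [h1, Nat.sub_self, mul_zero, mul_zero, zero_add] at h2
      exact h2
  have htri : tri ν + ρ = tri (g + 1) := by
    have := tri_mono hνle
    omega
  -- the starting point
  have h0 : GoodS ((2 * t + 4) ^ 2) m (H * G₂) (fun k => Wd H 1 (g + (2 * t + 3) * k)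
      (if k = 0 then ν else 0) ((if k = 0 then tri (g + 1) else Nk t g k) -
        tri (if k = 0 then ν else 0))) Q
      (tri (g + 1) + ∑ k ∈ Finset.range Q, Nk t g (k + 1)) := by
    refine goodS_final hHm hH hνle par.νκ par.ρle hinj (by rw [htri]) ?_ ?_
    · intro P hP
      beta_reduce
      rw [if_pos rfl, if_pos rfl, mul_zero, add_zero]
      exact hP
    · intro k hk _ P hP
      beta_reduce
      rw [if_neg (by omega), if_neg (by omega), tri_zero, Nat.sub_zero]
      refine ⟨fun _ => 0, P, fun _ _ => Submodule.zero_mem _, hP, ?_⟩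
      rw [Finset.sum_range_zero, zero_add, pow_zero, one_mul]
  -- inserting the roots of `G`
  obtain ⟨G, hG, hG0, hcop, hgood⟩ := exists_G (κ := κ) (N := 2 * t + 2) hH.le hHm.ne_zero
    (fun k => g + (2 * t + 3) * k) (fun k => if k = 0 then ν else 0)
    (fun k => if k = 0 then tri (g + 1) else Nk t g k) (by
      intro k _
      beta_reduce
      split_ifs
      · omega
      · exact Nat.zero_le _) (by
      intro k _ n hn1 hn2 hn3
      beta_reduce at hn1 hn2 ⊢
      rcases Nat.eq_zero_or_pos k with h | h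
      · subst h
        rw [if_pos rfl] at hn1 ⊢
        rw [mul_zero, add_zero] at hn2 ⊢
        have h1 := par.grow0 n hn1 hn2
        have h2 := two_mul_tri (g + 1)
        have h3 := two_mul_tri (n + 1)
        obtain ⟨j, hj⟩ : ∃ j, g = n + j := ⟨g - n, by omega⟩
        have e1 : g - n = j := by omega
        rw [e1]
        have h4 : 2 * (κ * j) ≤ (g + n + 3) * j := by
          rw [← mul_assoc]
          exact Nat.mul_le_mul_right _ h1
        have h5 : (g + n + 3) * j + (n + 1) * (n + 1 + 1) = (g + 1) * (g + 1 + 1) := by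
          rw [hj]
          ring
        omega
      · rw [if_neg (by omega), Nk]
        have hk2 : (2 * t + 3) * 1 ≤ (2 * t + 3) * k := Nat.mul_le_mul_left _ h
        have h1 := par.grow (g + (2 * t + 3) * k) n (by omega) (by omega) hn2
        have h3 := two_mul_tri (n + 1)
        generalize he : g + (2 * t + 3) * k = e at *
        obtain ⟨x, rfl⟩ : ∃ x, e = n + x := ⟨e - n, by omega⟩
        obtain ⟨y, hy⟩ : ∃ y, n + x = t + y := ⟨n + x - t, by omega⟩
        have e1 : n + x - n = x := by omega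
        have e2 : n + x - t = y := by omega
        rw [e1, e2]
        rw [hy] at h1
        have h4 : κ * (t + y) = κ * n + κ * x := by rw [← hy]; ring
        have h5 : (2 * t + 3) * (t + y) = (2 * t + 3) * t + (2 * t + 3) * y := by ring
        have h6 : (n + 1) * (n + 1 + 1) ≤ 2 * ((t + 2) * n + 1) := by nlinarith
        omega) h0 (2 * t + 2) le_rfl
  have hgood2 : GoodS ((2 * t + 4) ^ 2) m (H * G₂) (fun k => Wf H G (g + (2 * t + 3) * k)) Q
      (tri (g + 1) + ∑ k ∈ Finset.range Q, Nk t g (k + 1)) := by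
    refine hgood.mono ?_
    intro k _ P hP
    beta_reduce at hP
    rcases Nat.eq_zero_or_pos k with h | h
    · subst h
      rw [if_pos rfl, mul_zero, add_zero] at hP
      rw [mul_zero, add_zero]
      rcases Nat.lt_or_ge g (2 * t + 2) with h1 | h1
      · have e1 : qq (fun k => g + (2 * t + 3) * k) (fun k => if k = 0 then ν else 0)
            (2 * t + 2) 0 = g + 1 := by
          rw [qq]
          beta_reduce
          rw [if_pos rfl, mul_zero, add_zero]
          omega
        rw [e1, Nat.sub_self] at hP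
        exact wd_full hP
      · have h2 : g = 2 * t + 2 := by omega
        have h3 := par.νlt h2
        have e1 : qq (fun k => g + (2 * t + 3) * k) (fun k => if k = 0 then ν else 0)
            (2 * t + 2) 0 = 2 * t + 2 := by
          rw [qq]
          beta_reduce
          rw [if_pos rfl, mul_zero, add_zero]
          omega
        rw [e1] at hP
        refine wd_finish (n := 2 * t + 2) hH.le hκle hG (by omega) hcop (by omega) ?_ hP
        rw [h2, tri_succ]
        omega
    · rw [if_neg (by omega)] at hP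
      have hk2 : (2 * t + 3) * 1 ≤ (2 * t + 3) * k := Nat.mul_le_mul_left _ h
      have e1 : qq (fun k => g + (2 * t + 3) * k) (fun k => if k = 0 then ν else 0)
          (2 * t + 2) k = 2 * t + 2 := by
        rw [qq]
        beta_reduce
        rw [if_neg (by omega)]
        omega
      rw [e1] at hP
      refine wd_finish (n := 2 * t + 2) hH.le hκle hG (by omega) hcop (by omega) ?_ hP
      rw [Nk]
      have h3 := two_mul_tri (2 * t + 2)
      have hk3 : 2 * t + 3 ≤ g + (2 * t + 3) * k := by omega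
      generalize g + (2 * t + 3) * k = e at *
      obtain ⟨x, rfl⟩ : ∃ x, e = 2 * t + 2 + x := ⟨e - (2 * t + 2), by omega⟩
      have e2 : 2 * t + 2 + x - t = x + (t + 2) := by omega
      have e3 : 2 * t + 2 + x - (2 * t + 2) = x := by omega
      rw [e2, e3]
      have e4 : tri (2 * t + 2) = (t + 1) * (2 * t + 3) := by
        have : (2 * t + 2) * (2 * t + 2 + 1) = 2 * ((t + 1) * (2 * t + 3)) := by ring
        omega
      have e5 : (2 * t + 3) * (x + (t + 2)) = (t + 1) * (2 * t + 3) + ((2 * t + 2) * x +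
          (2 * t + 2 + x) + 1) := by ring
      rw [e4, e5]
      omega
  exact good_of_curve (a := 2 * t + 3) (by omega) (by rw [hG]; omega)
    (by rw [hG0]; exact one_ne_zero) (by rw [hH]; omega) hΓ0 hgood2

theorem sum_eq (t g Q : ℕ) : tri (g + 1) + ∑ k ∈ Finset.range Q, Nk t g (k + 1) =
    ((2 * t + 3) * Q + g + 2).choose 2 := by
  have h1 : 2 * (tri (g + 1) + ∑ k ∈ Finset.range Q, Nk t g (k + 1)) =
      ((2 * t + 3) * Q + g + 2) * ((2 * t + 3) * Q + g + 1) := by
    induction Q with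
    | zero =>
      rw [Finset.sum_range_zero, add_zero, two_mul_tri]
      ring
    | succ Q ih =>
      rw [Finset.sum_range_succ, ← add_assoc, mul_add, ih, Nk]
      have h2 : g + (2 * t + 3) * (Q + 1) - t = g + (2 * t + 3) * Q + (t + 3) := by
        have : (2 * t + 3) * (Q + 1) = (2 * t + 3) * Q + (2 * t + 3) := by ring
        omega
      rw [h2]
      ring
  rw [Nat.choose_two_right]
  have e1 : (2 * t + 3) * Q + g + 2 - 1 = (2 * t + 3) * Q + g + 1 := by omega
  rw [e1, ← h1]
  omega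

/-- **All squares, every characteristic.** -/
theorem good_sq_all [Infinite K] (s m d : ℕ) (hs : 1 ≤ s) :
    Good K (s ^ 2) m (fun b => d + 1 - b)
      (min ((d + 2).choose 2) (s ^ 2 * (m + 1).choose 2)) := by
  by_cases hyp : s * (2 * m + 1) ≠ 2 * d + 4 ∨ s ≤ 12 ∨ 4 * m ≤ s * (s - 2)
  · exact Pool.Agent.Helper6.SQ.good_sq s m d hs hyp
  push Not at hyp
  obtain ⟨h1, h2, h3⟩ := hyp
  obtain ⟨u, hu | hu⟩ := Nat.even_or_odd' s
  swap
  · exfalso
    have h4 : s * (2 * m + 1) = 2 * (u * (2 * m + 1) + m) + 1 := by rw [hu]; ring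
    omega
  obtain ⟨t, rfl⟩ : ∃ t, u = t + 2 := ⟨u - 2, by omega⟩
  have hs2 : s = 2 * t + 4 := by omega
  subst hs2
  have h4 : d = (2 * t + 4) * m + t := by
    have : (2 * t + 4) * (2 * m + 1) = 2 * ((2 * t + 4) * m) + (2 * t + 4) := by ring
    omega
  have h5 : (t + 1) * (t + 2) < m := by
    have e1 : 2 * t + 4 - 2 = 2 * t + 2 := by omega
    rw [e1] at h3
    have e2 : (2 * t + 4) * (2 * t + 2) = 4 * ((t + 1) * (t + 2)) := by ring
    omega
  have h6 : (2 * t + 3) * (d / (2 * t + 3)) + d % (2 * t + 3) = d := Nat.div_add_mod _ _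
  have h7 := even_case (K := K) (t := t) (m := m) (Q := d / (2 * t + 3)) (g := d % (2 * t + 3))
    (by omega) (Nat.mod_lt _ (by omega)) h5 (by rw [h6, h4])
  rw [sum_eq, h6] at h7
  exact Good.le (min_le_left _ _) h7

end Pool.Agent.Helper48.SQ
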