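import Pool.Agent.Helper48.SQ.Corner

set_option autoImplicit false

/-! # Project SQ48 (helper48): numerical conditions -/

namespace Pool.Agent.Helper48.SQ

/-- Conditions on the degree `κ` of `H` and the number `ν` of initial corner digits. -/
structure Params (t g κ ν : ℕ) : Prop where
  κpos : 0 < κ
  κle : κ ≤ 2 * t + 2
  νle : ν ≤ g + 1
  νκ : ν ≤ κ
  νlt : g = 2 * t + 2 → ν ≤ g
  ρle : tri (g + 1) - tri ν ≤ κ * (g + 1 - ν)
  ρle' : tri (g + 1) - tri ν ≤ κ * g + 1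
  qle : ∀ i ≤ g, qd κ g ν (tri (g + 1) - tri ν) i + t + i ≤ g + κ
  grow0 : ∀ n, ν ≤ n → n ≤ g → 2 * κ ≤ g + n + 3
  grow : ∀ e n, g + (2 * t + 3) ≤ e → n ≤ 2 * t + 1 → n ≤ e →
    κ * e + (t + 2) * n + 1 + (2 * t + 3) * t ≤ (2 * t + 3) * e + κ * n

theorem qd_top {κ g ν ρ i : ℕ} (h : ¬ i < g + 1 - ν) : qd κ g ν ρ i = g + 1 - i := if_neg h

theorem params_A {t g : ℕ} (hg : g ≤ t) : Params t g (t + 1) (g + 1) where
  κpos := Nat.succ_pos t
  κle := by omega
  νle := le_rfl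
  νκ := by omega
  νlt := by omega
  ρle := by rw [Nat.sub_self]; exact Nat.zero_le _
  ρle' := by rw [Nat.sub_self]; exact Nat.zero_le _
  qle := by
    intro i hi
    rw [qd_top (by omega)]
    omega
  grow0 := by
    intro n h1 h2
    omega
  grow := by
    intro e n h1 h2 h3
    obtain ⟨x, rfl⟩ : ∃ x, e = 2 * t + 3 + x := ⟨e - (2 * t + 3), by omega⟩
    obtain ⟨y, hy⟩ : ∃ y, 2 * t + 3 + x = n + y := ⟨2 * t + 3 + x - n, by omega⟩
    nlinarith [Nat.zero_le (t * x), Nat.zero_le (t * y)]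

theorem params_A' {t g : ℕ} (hg : g = t + 1) : Params t g (t + 2) (g + 1) where
  κpos := Nat.succ_pos _
  κle := by omega
  νle := le_rfl
  νκ := by omega
  νlt := by omega
  ρle := by rw [Nat.sub_self]; exact Nat.zero_le _
  ρle' := by rw [Nat.sub_self]; exact Nat.zero_le _
  qle := by
    intro i hi
    rw [qd_top (by omega)]
    omega
  grow0 := by
    intro n h1 h2
    omega
  grow := by
    intro e n h1 h2 h3
    obtain ⟨x, rfl⟩ : ∃ x, e = g + (2 * t + 3) + x := ⟨e - (g + (2 * t + 3)), by omega⟩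
    subst hg
    nlinarith [Nat.zero_le (t * x)]

theorem qd_low_le {κ g ν ρ i : ℕ} (h : i < g + 1 - ν) : qd κ g ν ρ i ≤ κ := by
  rw [qd, if_pos h]
  exact min_le_left _ _

theorem qd_low_le' {κ g ν ρ i : ℕ} (h : i < g + 1 - ν) : qd κ g ν ρ i ≤ ρ - κ * i := by
  rw [qd, if_pos h]
  exact min_le_right _ _

theorem params_B {t g j : ℕ} (ht : 1 ≤ t) (hj : 1 ≤ j) (hg : g = t + 1 + 2 * j)
    (hg' : g ≤ 2 * t + 2) : Params t g (t + 2 + j) t := by
  have h1 := two_mul_tri (g + 1)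
  have h2 := two_mul_tri t
  have h3 : 2 * (tri (g + 1) - tri t) + (2 * j + 2) = 2 * ((t + 2 + j) * (g + 1 - t)) := by
    subst hg
    have e1 : t + 1 + 2 * j + 1 - t = 2 * j + 2 := by omega
    have e2 := tri_mono (show t ≤ t + 1 + 2 * j + 1 by omega)
    rw [e1, Nat.mul_sub, h1, h2]
    have e3 : (t + 1 + 2 * j + 1) * (t + 1 + 2 * j + 1 + 1) + (2 * j + 2) =
        2 * ((t + 2 + j) * (2 * j + 2)) + t * (t + 1) := by ring
    omega
  have h4 : (t + 2 + j) * (g + 1 - t) ≤ (t + 2 + j) * g := Nat.mul_le_mul_left _ (by omega)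
  refine ⟨by omega, by omega, by omega, by omega, by omega, by omega, by omega, ?_, ?_, ?_⟩
  · intro i hi
    by_cases hc : i < g + 1 - t
    · have := qd_low_le (κ := t + 2 + j) (ρ := tri (g + 1) - tri t) hc
      omega
    · rw [qd_top hc]
      omega
  · intro n h5 h6
    omega
  · intro e n h5 h6 h7
    obtain ⟨x, rfl⟩ : ∃ x, e = g + (2 * t + 3) + x := ⟨e - (g + (2 * t + 3)), by omega⟩
    obtain ⟨y, hy⟩ : ∃ y, t + 1 = 2 * j + y := ⟨t + 1 - 2 * j, by omega⟩
    have h8 : (t + 2) * n ≤ (t + 2 + j) * n := Nat.mul_le_mul_right _ (by omega)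
    have h9 : (t + 2 + j) * (g + (2 * t + 3) + x) + 1 + (2 * t + 3) * t ≤
        (2 * t + 3) * (g + (2 * t + 3) + x) := by
      have h10 : (t + 2 + j) * x ≤ (2 * t + 3) * x := Nat.mul_le_mul_right _ (by omega)
      have h11 : (t + 2 + j) * (g + (2 * t + 3)) + 1 + (2 * t + 3) * t ≤
        (2 * t + 3) * (g + (2 * t + 3)) := by
        subst hg
        zify at *
        have e1 : (t : ℤ) = 2 * j + y - 1 := by linarith
        rw [e1]
        nlinarith [mul_nonneg (Nat.cast_nonneg (α := ℤ) j) (Nat.cast_nonneg (α := ℤ) y),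
          mul_nonneg (Nat.cast_nonneg (α := ℤ) y) (Nat.cast_nonneg (α := ℤ) y),
          mul_nonneg (Nat.cast_nonneg (α := ℤ) j) (Nat.cast_nonneg (α := ℤ) j)]
      nlinarith
    omega

theorem params_B' {t g j : ℕ} (ht : 2 ≤ t) (hj : 1 ≤ j) (hg : g = t + 2 * j)
    (hg' : g ≤ 2 * t + 2) : Params t g (t + 1 + j) (t - 1) := by
  obtain ⟨u, rfl⟩ : ∃ u, t = u + 1 := ⟨t - 1, by omega⟩
  rw [Nat.add_sub_cancel]
  have h1 := two_mul_tri (g + 1)
  have h2 := two_mul_tri u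
  have h3 : 2 * (tri (g + 1) - tri u) + (2 * j + 2) = 2 * ((u + 1 + 1 + j) * (g + 1 - u)) := by
    subst hg
    have e1 : u + 1 + 2 * j + 1 - u = 2 * j + 2 := by omega
    have e2 := tri_mono (show u ≤ u + 1 + 2 * j + 1 by omega)
    rw [e1, Nat.mul_sub, h1, h2]
    have e3 : (u + 1 + 2 * j + 1) * (u + 1 + 2 * j + 1 + 1) + (2 * j + 2) =
        2 * ((u + 1 + 1 + j) * (2 * j + 2)) + u * (u + 1) := by ring
    omega
  have h4 : (u + 1 + 1 + j) * (g + 1 - u) ≤ (u + 1 + 1 + j) * g :=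
    Nat.mul_le_mul_left _ (by omega)
  refine ⟨by omega, by omega, by omega, by omega, by omega, by omega, by omega, ?_, ?_, ?_⟩
  · intro i hi
    by_cases hc : i < g + 1 - u
    · have h5 := qd_low_le (κ := u + 1 + 1 + j) (ρ := tri (g + 1) - tri u) hc
      rcases Nat.lt_or_ge i (2 * j + 1) with h6 | h6
      · omega
      · have h7 := qd_low_le' (κ := u + 1 + 1 + j) (ρ := tri (g + 1) - tri u) hc
        have h8 : i = 2 * j + 1 := by omega
        have h9 : g + 1 - u = i + 1 := by omega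
        rw [h9] at h3
        have h10 : (u + 1 + 1 + j) * (i + 1) = (u + 1 + 1 + j) * i + (u + 1 + 1 + j) := by ring
        omega
    · rw [qd_top hc]
      omega
  · intro n h5 h6
    omega
  · intro e n h5 h6 h7
    obtain ⟨x, rfl⟩ : ∃ x, e = g + (2 * (u + 1) + 3) + x :=
      ⟨e - (g + (2 * (u + 1) + 3)), by omega⟩
    obtain ⟨y, hy⟩ : ∃ y, u + 3 = 2 * j + y := ⟨u + 3 - 2 * j, by omega⟩
    have h8 : (u + 1 + 2) * n ≤ (u + 1 + 1 + j) * n := Nat.mul_le_mul_right _ (by omega)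
    have h9 : (u + 1 + 1 + j) * (g + (2 * (u + 1) + 3) + x) + 1 + (2 * (u + 1) + 3) * (u + 1) ≤
        (2 * (u + 1) + 3) * (g + (2 * (u + 1) + 3) + x) := by
      have h10 : (u + 1 + 1 + j) * x ≤ (2 * (u + 1) + 3) * x := Nat.mul_le_mul_right _ (by omega)
      have h11 : (u + 1 + 1 + j) * (g + (2 * (u + 1) + 3)) + 1 + (2 * (u + 1) + 3) * (u + 1) ≤
        (2 * (u + 1) + 3) * (g + (2 * (u + 1) + 3)) := by
        subst hg
        zify at *
        have e1 : (u : ℤ) = 2 * j + y - 3 := by linarith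
        rw [e1]
        nlinarith [mul_nonneg (Nat.cast_nonneg (α := ℤ) j) (Nat.cast_nonneg (α := ℤ) y),
          mul_nonneg (Nat.cast_nonneg (α := ℤ) y) (Nat.cast_nonneg (α := ℤ) y),
          mul_nonneg (Nat.cast_nonneg (α := ℤ) j) (Nat.cast_nonneg (α := ℤ) j)]
      nlinarith
    omega

theorem exists_params {t g : ℕ} (ht : 2 ≤ t) (hg : g ≤ 2 * t + 2) : ∃ κ ν, Params t g κ ν := by
  rcases Nat.lt_or_ge t g with h1 | h1
  · rcases Nat.even_or_odd' (g - t) with ⟨j, hj | hj⟩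
    · exact ⟨_, _, params_B' ht (by omega) (by omega : g = t + 2 * j) hg⟩
    · rcases Nat.eq_zero_or_pos j with h | h
      · exact ⟨_, _, params_A' (by omega)⟩
      · exact ⟨_, _, params_B (by omega) h (by omega : g = t + 1 + 2 * j) hg⟩
  · exact ⟨_, _, params_A h1⟩

end Pool.Agent.Helper48.SQ
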