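import Pool.Agent.Helper7.FatShell
import Pool.Agent.Helper48.SQ.Main

set_option autoImplicit false

namespace Pool.Agent.Helper48.SQ

open Pool.Agent.Helper7.Shell

/-- **All perfect squares, every characteristic.** Let `K` be an infinite field of any
characteristic, `s ≥ 1`, `r = s ^ 2`, and `m, d ≥ 0` arbitrary. Then the general subscheme `Y` of
the plane isomorphic to `Spec K[x,y]/(y, x^r)^m` has the expected postulation in degree `d`. -/
theorem squares_all_char (K : Type*) [Field K] [Infinite K] (s m d : ℕ) (hs : 1 ≤ s) :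
    ∃ Φ : MvPolynomial (Fin 2 × Idx (s ^ 2) m) K, Φ ≠ 0 ∧
      ∀ α : Fin 2 × Idx (s ^ 2) m → K, MvPolynomial.eval α Φ ≠ 0 →
        Function.Surjective (psi α) ∧
        Module.finrank K (H0 d α) = (d + 2).choose 2 - s ^ 2 * (m + 1).choose 2 := by
  apply shell
  exact Pool.Agent.Helper48.SQ.good_sq_all s m d hs

end Pool.Agent.Helper48.SQ
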