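import Pool.Agent.Helper7.NM.Move

set_option autoImplicit false

/-! # Project SQ48 (helper48), MP_e6aa12_ag: squares in every characteristic

`Wd`, `Wf`: row spaces with digits. `GoodS`: independent vectors with prescribed rows.
`goodS_step`: perturbation. -/

open Polynomial

namespace Pool.Agent.Helper48.SQ

open Pool.Agent.Helper41.Fat Pool.Agent.Helper7.NM

variable {K : Type*} [Field K]

/-- Digits `c k` of degree at most `k` in front of `H ^ (e - k) * G ^ k`, `k < q`, and a remainder. -/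
def Wd (H G : K[X]) (e q L : ℕ) (P : K[X]) : Prop :=
  ∃ (c : ℕ → K[X]) (R : K[X]), (∀ k < q, c k ∈ degreeLT K (k + 1)) ∧ R ∈ degreeLT K L ∧
    P = ∑ k ∈ Finset.range q, H ^ (e - k) * G ^ k * c k + G ^ q * R

/-- All digits. -/
def Wf (H G : K[X]) (e : ℕ) (P : K[X]) : Prop :=
  ∃ c : ℕ → K[X], (∀ k ≤ e, c k ∈ degreeLT K (k + 1)) ∧
    P = ∑ k ∈ Finset.range (e + 1), H ^ (e - k) * G ^ k * c k

/-- `R` independent conditions are imposed at the germ `θ` on the polynomials
`∑_{k ≤ Q} z ^ k P_k` with `S k P_k`. -/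
def GoodS (r m : ℕ) (θ : K[X]) (S : ℕ → K[X] → Prop) (Q R : ℕ) : Prop :=
  ∃ w : Fin R → K[X][X], (∀ i, (w i).natDegree ≤ Q ∧ ∀ k ≤ Q, S k ((w i).coeff k)) ∧
    LinearIndependent K (fun i => Phi K r m θ (w i))

theorem eval_map_C (p : K[X][X]) (ε : K) :
    (p.map (C : K[X] →+* K[X][X])).eval (algebraMap K K[X][X] ε) = C (p.eval (C ε)) := by
  rw [algebraMap_eq_CC, eval_map, eval₂_at_apply]

theorem goodS_step {r m Q R : ℕ} {θ : K[X]} {S₀ : ℕ → K[X] → Prop} {S : K → ℕ → K[X] → Prop}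
    {bad : Set K} (h : GoodS r m θ S₀ Q R)
    (hl : ∀ k ≤ Q, ∀ P, S₀ k P → ∃ p : K[X][X], p.coeff 0 = P ∧ ∀ ε ∉ bad, S ε k (p.eval (C ε))) :
    {ε : K | ε ∉ bad ∧ ¬ GoodS r m θ (S ε) Q R}.Finite := by
  classical
  obtain ⟨w, hw, hli⟩ := h
  have hl' : ∀ (i : Fin R) (k : ℕ), ∃ p : K[X][X], k ≤ Q → p.coeff 0 = (w i).coeff k ∧
      ∀ ε ∉ bad, S ε k (p.eval (C ε)) := by
    intro i k
    by_cases hk : k ≤ Q
    · obtain ⟨p, hp⟩ := hl k hk _ ((hw i).2 k hk)
      exact ⟨p, fun _ => hp⟩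
    · exact ⟨0, fun h => absurd h hk⟩
  choose p hp using hl'
  let W : Fin R → K[X][X][X] := fun i =>
    ∑ k ∈ Finset.range (Q + 1), (p i k).map C * C (X ^ k : K[X][X])
  have hW0 : ∀ i, (W i).coeff 0 = w i := by
    intro i
    simp only [W, finsetSum_coeff, coeff_mul_C, coeff_map]
    conv_rhs => rw [(w i).as_sum_range_C_mul_X_pow' (Nat.lt_succ_of_le (hw i).1)]
    refine Finset.sum_congr rfl fun k hk => ?_
    rw [(hp i k (Nat.lt_succ_iff.1 (Finset.mem_range.1 hk))).1]
  have hWe : ∀ i (ε : K), (W i).eval (algebraMap K K[X][X] ε) =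
      ∑ k ∈ Finset.range (Q + 1), C ((p i k).eval (C ε)) * X ^ k := by
    intro i ε
    simp only [W, eval_finsetSum, eval_mul, eval_C, eval_map_C]
  have hfin := finite_bad (Phi K r m θ) W (by simpa only [hW0] using hli)
  refine hfin.subset ?_
  rintro ε ⟨hε, hg⟩ hlin
  apply hg
  refine ⟨fun i => (W i).eval (algebraMap K K[X][X] ε), fun i => ⟨?_, ?_⟩, hlin⟩
  · beta_reduce
    rw [hWe, natDegree_le_iff_coeff_eq_zero]
    intro N hN
    rw [finsetSum_coeff]
    refine Finset.sum_eq_zero fun k hk => ?_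
    rw [coeff_C_mul_X_pow, if_neg]
    rw [Finset.mem_range] at hk
    omega
  · intro k hk
    have h1 : ((W i).eval (algebraMap K K[X][X] ε)).coeff k = (p i k).eval (C ε) := by
      rw [hWe, finsetSum_coeff, Finset.sum_eq_single k]
      · rw [coeff_C_mul_X_pow, if_pos rfl]
      · intro l _ hl
        rw [coeff_C_mul_X_pow, if_neg (Ne.symm hl)]
      · intro hk'
        exact absurd (Finset.mem_range.2 (Nat.lt_succ_of_le hk)) hk'
    rw [h1]
    exact (hp i k hk).2 ε hε

/-- The linear factor. -/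
noncomputable def lf (ε : K) : K[X] := 1 - C ε * X

/-- Replacing `G₁` by `(1 - ε X) G₁` in a representation. -/
theorem exists_lift (H G₁ : K[X]) (e q : ℕ) (c : ℕ → K[X]) (R : K[X]) :
    ∃ p : K[X][X], p.coeff 0 = ∑ k ∈ Finset.range q, H ^ (e - k) * G₁ ^ k * c k + G₁ ^ q * R ∧
      ∀ ε : K, p.eval (C ε) = ∑ k ∈ Finset.range q, H ^ (e - k) * (lf ε * G₁) ^ k * c k
        + (lf ε * G₁) ^ q * R := by
  let B : K[X][X] := (1 - C (X : K[X]) * X) * C G₁
  let p : K[X][X] := ∑ k ∈ Finset.range q, C (H ^ (e - k)) * B ^ k * C (c k) + B ^ q * C R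
  have hB : ∀ ε : K, B.eval (C ε) = lf ε * G₁ := by
    intro ε
    simp only [B, lf, eval_mul, eval_sub, eval_one, eval_C, eval_X]
    ring
  have hp : ∀ ε : K, p.eval (C ε) = ∑ k ∈ Finset.range q, H ^ (e - k) * (lf ε * G₁) ^ k * c k
        + (lf ε * G₁) ^ q * R := by
    intro ε
    simp only [p, eval_add, eval_finsetSum, eval_mul, eval_pow, eval_C, hB]
  refine ⟨p, ?_, hp⟩
  have h0 := hp 0
  rw [map_zero, ← coeff_zero_eq_eval_zero] at h0
  rw [h0]
  simp [lf]

theorem wd_lift {H G₁ : K[X]} {e q L : ℕ} {P : K[X]} (h : Wd H G₁ e q L P) :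
    ∃ p : K[X][X], p.coeff 0 = P ∧ ∀ ε : K, Wd H (lf ε * G₁) e q L (p.eval (C ε)) := by
  obtain ⟨c, R, hc, hR, rfl⟩ := h
  obtain ⟨p, hp0, hp⟩ := exists_lift H G₁ e q c R
  exact ⟨p, hp0, fun ε => ⟨c, R, hc, hR, hp ε⟩⟩

theorem natDegree_lf {ε : K} (hε : ε ≠ 0) : (lf ε).natDegree = 1 := by
  have h2 : lf ε = C (-ε) * X + C 1 := by
    rw [lf, C_neg, C_1]
    ring
  rw [h2]
  exact natDegree_linear (neg_ne_zero.2 hε)

theorem lf_ne_zero {ε : K} : lf ε ≠ 0 := by
  intro h
  have h1 := congrArg (fun p => coeff p 0) h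
  simp [lf] at h1

/-- Division step: `R = H ^ j * c + G * R'`. -/
theorem split_step {H G R : K[X]} {κ j n L : ℕ} (hH : H.natDegree ≤ κ) (hG : G.natDegree = n)
    (hn : 0 < n) (hcop : IsCoprime G H) (hj : κ * j ≤ L) (hR : R ∈ degreeLT K (L + n)) :
    ∃ c R', c ∈ degreeLT K n ∧ R' ∈ degreeLT K L ∧ R = H ^ j * c + G * R' := by
  have hG0 : G ≠ 0 := by
    intro h
    rw [h, natDegree_zero] at hG
    omega
  obtain ⟨u, v, huv⟩ := hcop.pow_right (n := j)
  have hcdeg : (R * v) % G ∈ degreeLT K n := by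
    rw [mem_degreeLT, ← hG, ← degree_eq_natDegree hG0]
    exact EuclideanDomain.mod_lt _ hG0
  have hdvd : G ∣ R - H ^ j * ((R * v) % G) := by
    have h1 : R * v = G * (R * v / G) + (R * v) % G := (EuclideanDomain.div_add_mod _ _).symm
    have h2 : (R * v) % G = R * v - G * (R * v / G) := by
      rw [eq_sub_iff_add_eq, add_comm]
      exact h1.symm
    rw [h2]
    refine ⟨R * u + H ^ j * (R * v / G), ?_⟩
    linear_combination R * (-1 : K[X]) * huv
  obtain ⟨R', hR'⟩ := hdvd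
  refine ⟨(R * v) % G, R', hcdeg, ?_, ?_⟩
  · have hmem : R - H ^ j * ((R * v) % G) ∈ degreeLT K (G.natDegree + L) := by
      rw [hG, add_comm n L]
      refine Submodule.sub_mem _ hR ?_
      by_cases h0 : (R * v) % G = 0
      · rw [h0, mul_zero]
        exact Submodule.zero_mem _
      · rw [mem_degreeLT]
        rw [mem_degreeLT, degree_eq_natDegree h0] at hcdeg
        have h3 : ((R * v) % G).natDegree < n := by exact_mod_cast hcdeg
        refine lt_of_le_of_lt degree_le_natDegree ?_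
        have h4 : (H ^ j * ((R * v) % G)).natDegree ≤ j * κ + ((R * v) % G).natDegree := by
          refine natDegree_mul_le.trans (Nat.add_le_add_right ?_ _)
          exact natDegree_pow_le.trans (Nat.mul_le_mul_left _ hH)
        have h5 : j * κ = κ * j := Nat.mul_comm _ _
        exact_mod_cast (by omega : (H ^ j * ((R * v) % G)).natDegree < L + n)
    have h6 := div_mem_degreeLT hG0 hmem
    rwa [hR', mul_div_cancel_left₀ _ hG0] at h6
  · rw [← hR']
    ring

theorem wd_grow {H G₁ : K[X]} {κ e n L : ℕ} {P : K[X]} (hH : H.natDegree ≤ κ)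
    (hG₁ : G₁.natDegree = n) (hG₁0 : G₁ ≠ 0) (hn : κ * (e - n) ≤ L)
    (h : Wd H G₁ e n (L + (n + 1)) P) :
    ∃ p : K[X][X], p.coeff 0 = P ∧ ∀ ε : K, ε ≠ 0 → IsCoprime (lf ε * G₁) H →
      Wd H (lf ε * G₁) e (n + 1) L (p.eval (C ε)) := by
  obtain ⟨c, R, hc, hR, rfl⟩ := h
  obtain ⟨p, hp0, hp⟩ := exists_lift H G₁ e n c R
  refine ⟨p, hp0, fun ε hε hcop => ?_⟩
  have hdeg : (lf ε * G₁).natDegree = n + 1 := by
    rw [natDegree_mul lf_ne_zero hG₁0, natDegree_lf hε, hG₁, add_comm]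
  obtain ⟨c', R', hc', hR', hsplit⟩ := split_step (j := e - n) hH hdeg (Nat.succ_pos n) hcop hn hR
  refine ⟨fun k => if k < n then c k else c', R', ?_, hR', ?_⟩
  · intro k hk
    dsimp only
    split_ifs with h
    · exact hc k h
    · have hk' : k = n := by omega
      rw [hk']
      exact hc'
  · rw [hp ε, Finset.sum_range_succ]
    dsimp only
    rw [if_neg (lt_irrefl n)]
    have h1 : ∑ k ∈ Finset.range n, H ^ (e - k) * (lf ε * G₁) ^ k * (if k < n then c k else c') =
        ∑ k ∈ Finset.range n, H ^ (e - k) * (lf ε * G₁) ^ k * c k := by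
      refine Finset.sum_congr rfl fun k hk => ?_
      rw [if_pos (Finset.mem_range.1 hk)]
    rw [h1, hsplit]
    ring

/-- The last step: the remainder is a combination of the further digits. -/
theorem fin_aux {H G : K[X]} {κ n e : ℕ} (hH : H.natDegree ≤ κ) (hκ : κ ≤ n)
    (hG : G.natDegree = n) (hn : 0 < n) (hcop : IsCoprime G H) :
    ∀ (j q : ℕ) (R : K[X]), q + j = e → n ≤ q + 1 → R ∈ degreeLT K (n * j + e + 1) →
      ∃ c : ℕ → K[X], (∀ k ≤ e, c k ∈ degreeLT K (k + 1)) ∧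
        G ^ q * R = ∑ k ∈ Finset.Ico q (e + 1), H ^ (e - k) * G ^ k * c k := by
  intro j
  induction j with
  | zero =>
    intro q R hq _ hR
    rw [Nat.add_zero] at hq
    subst hq
    refine ⟨fun k => if k = q then R else 0, ?_, ?_⟩
    · intro k _
      dsimp only
      split_ifs with h
      · rw [h]
        rw [mul_zero, zero_add] at hR
        exact hR
      · exact Submodule.zero_mem _
    · rw [Nat.Ico_succ_singleton, Finset.sum_singleton]
      beta_reduce
      rw [if_pos rfl, Nat.sub_self, pow_zero, one_mul]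
  | succ j ih =>
    intro q R hq hnq hR
    have h1 : n * (j + 1) + e + 1 = (n * j + e + 1) + n := by ring
    rw [h1] at hR
    have h2 : κ * (j + 1) ≤ n * j + e + 1 := by
      have h3 : κ * (j + 1) ≤ n * (j + 1) := Nat.mul_le_mul_right _ hκ
      have h4 : n * (j + 1) = n * j + n := by ring
      omega
    obtain ⟨c', R', hc', hR', hsplit⟩ := split_step (j := j + 1) hH hG hn hcop h2 hR
    obtain ⟨c, hc, hsum⟩ := ih (q + 1) R' (by omega) (by omega) hR'
    refine ⟨fun k => if k = q then c' else c k, ?_, ?_⟩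
    · intro k hk
      dsimp only
      split_ifs with h
      · rw [h]
        exact degreeLT_mono (by omega) hc'
      · exact hc k hk
    · rw [Finset.sum_eq_sum_Ico_succ_bot (by omega : q < e + 1)]
      beta_reduce
      rw [if_pos rfl]
      have h5 : ∑ k ∈ Finset.Ico (q + 1) (e + 1), H ^ (e - k) * G ^ k * (if k = q then c' else c k)
          = ∑ k ∈ Finset.Ico (q + 1) (e + 1), H ^ (e - k) * G ^ k * c k := by
        refine Finset.sum_congr rfl fun k hk => ?_
        rw [Finset.mem_Ico] at hk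
        rw [if_neg (by omega)]
      rw [h5, ← hsum, hsplit]
      have h6 : e - q = j + 1 := by omega
      rw [h6]
      ring

theorem wd_finish {H G : K[X]} {κ n e L : ℕ} {P : K[X]} (hH : H.natDegree ≤ κ) (hκ : κ ≤ n)
    (hG : G.natDegree = n) (hn : 0 < n) (hcop : IsCoprime G H) (hne : n ≤ e)
    (hL : L ≤ n * (e - n) + e + 1) (h : Wd H G e n L P) : Wf H G e P := by
  obtain ⟨c, R, hc, hR, rfl⟩ := h
  obtain ⟨c', hc', hsum⟩ := fin_aux (e := e) hH hκ hG hn hcop (e - n) n R (by omega) (by omega)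
    (degreeLT_mono hL hR)
  refine ⟨fun k => if k < n then c k else c' k, ?_, ?_⟩
  · intro k hk
    dsimp only
    split_ifs with h
    · exact hc k h
    · exact hc' k hk
  · rw [Finset.range_eq_Ico, Finset.range_eq_Ico,
      ← Finset.sum_Ico_consecutive _ (Nat.zero_le n) (by omega : n ≤ e + 1), hsum]
    beta_reduce
    congr 1
    · refine Finset.sum_congr rfl fun k hk => ?_
      rw [Finset.mem_Ico] at hk
      rw [if_pos hk.2]
    · refine Finset.sum_congr rfl fun k hk => ?_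
      rw [Finset.mem_Ico] at hk
      rw [if_neg (by omega)]

theorem wd_full {H G : K[X]} {e : ℕ} {P : K[X]} (h : Wd H G e (e + 1) 0 P) : Wf H G e P := by
  obtain ⟨c, R, hc, hR, rfl⟩ := h
  have hR0 : R = 0 := by
    rw [mem_degreeLT] at hR
    by_contra h0
    rw [degree_eq_natDegree h0] at hR
    have : R.natDegree < 0 := by exact_mod_cast hR
    omega
  exact ⟨c, fun k hk => hc k (by omega), by rw [hR0, mul_zero, add_zero]⟩

end Pool.Agent.Helper48.SQ
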