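import Pool.Agent.Helper48.SQ.Step

set_option autoImplicit false

/-! # Project SQ48 (helper48): inserting the roots of `G` one by one -/

open Polynomial

namespace Pool.Agent.Helper48.SQ

open Pool.Agent.Helper41.Fat Pool.Agent.Helper7.NM

variable {K : Type*} [Field K]

/-- Triangular numbers. -/
def tri (n : ℕ) : ℕ := ∑ j ∈ Finset.range n, (j + 1)

theorem tri_succ (n : ℕ) : tri (n + 1) = tri n + (n + 1) := by
  rw [tri, Finset.sum_range_succ]
  rfl

theorem tri_zero : tri 0 = 0 := rfl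

theorem two_mul_tri (n : ℕ) : 2 * tri n = n * (n + 1) := by
  induction n with
  | zero => rfl
  | succ n ih =>
    rw [tri_succ, mul_add, ih]
    ring

theorem tri_mono {a b : ℕ} (h : a ≤ b) : tri a ≤ tri b :=
  Finset.sum_le_sum_of_subset (Finset.range_subset_range.2 h)

theorem isCoprime_lf {H : K[X]} {ε : K} (hε : ε ≠ 0) (h : H.eval ε⁻¹ ≠ 0) :
    IsCoprime (lf ε) H := by
  have h1 : lf ε = C (-ε) * (X - C ε⁻¹) := by
    rw [mul_sub, ← C_mul, neg_mul, mul_inv_cancel₀ hε, lf, C_neg, C_neg, C_1]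
    ring
  have h2 : IsCoprime (X - C ε⁻¹) H := by
    refine ((irreducible_X_sub_C ε⁻¹).coprime_iff_not_dvd).2 ?_
    rw [dvd_iff_isRoot]
    exact h
  rw [h1]
  exact (isCoprime_mul_unit_left_left (isUnit_C.2 (neg_ne_zero.2 hε).isUnit) _ _).2 h2

theorem finite_bad_eps {H : K[X]} (hH0 : H ≠ 0) :
    {ε : K | ε = 0 ∨ H.eval ε⁻¹ = 0}.Finite := by
  have h1 : ({x : K | H.IsRoot x}).Finite := Polynomial.finite_setOfPred_isRoot hH0
  have h2 : ((fun x : K => x⁻¹) '' {x : K | H.IsRoot x}).Finite := h1.image _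
  refine ((Set.finite_singleton (0 : K)).union h2).subset ?_
  rintro ε (h | h)
  · left
    exact h
  · right
    exact ⟨ε⁻¹, h, inv_inv ε⟩

/-- The number of restricted digits when `G` has degree `n`. -/
def qq (e ν : ℕ → ℕ) (n k : ℕ) : ℕ := max (ν k) (min n (e k + 1))

theorem exists_G [Infinite K] {r m Q R κ N : ℕ} {θ H : K[X]} (hH : H.natDegree ≤ κ) (hH0 : H ≠ 0)
    (e ν D : ℕ → ℕ) (hν : ∀ k ≤ Q, ν k ≤ e k + 1)
    (hgrow : ∀ k ≤ Q, ∀ n, ν k ≤ n → n ≤ e k → n < N → κ * (e k - n) + tri (n + 1) ≤ D k)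
    (h0 : GoodS r m θ (fun k => Wd H 1 (e k) (ν k) (D k - tri (ν k))) Q R) :
    ∀ n ≤ N, ∃ G : K[X], G.natDegree = n ∧ G.coeff 0 = 1 ∧ IsCoprime G H ∧
      GoodS r m θ (fun k => Wd H G (e k) (qq e ν n k) (D k - tri (qq e ν n k))) Q R := by
  intro n
  induction n with
  | zero =>
    intro _
    refine ⟨1, natDegree_one, coeff_one_zero, isCoprime_one_left, ?_⟩
    have h1 : ∀ k, qq e ν 0 k = ν k := by
      intro k
      rw [qq]
      omega
    simp only [h1]
    exact h0
  | succ n ih =>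
    intro hn
    obtain ⟨G₁, hG₁, hG₁0, hcop, hg⟩ := ih (by omega)
    have hG₁ne : G₁ ≠ 0 := by
      intro h
      rw [h, coeff_zero] at hG₁0
      exact zero_ne_one hG₁0
    have hfin := goodS_step (S := fun ε k => Wd H (lf ε * G₁) (e k) (qq e ν (n + 1) k)
      (D k - tri (qq e ν (n + 1) k))) (bad := {ε : K | ε = 0 ∨ H.eval ε⁻¹ = 0}) hg ?_
    · obtain ⟨ε, hε⟩ := (hfin.union (finite_bad_eps hH0)).exists_notMem
      simp only [Set.mem_union, Set.mem_ofPred_eq, not_or, not_and, not_not] at hε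
      obtain ⟨h1, h2, h3⟩ := hε
      refine ⟨lf ε * G₁, ?_, ?_, IsCoprime.mul_left (isCoprime_lf h2 h3) hcop, h1 ⟨h2, h3⟩⟩
      · rw [natDegree_mul lf_ne_zero hG₁ne, natDegree_lf h2, hG₁, add_comm]
      · rw [mul_coeff_zero, hG₁0, lf]
        simp
    · intro k hk P hP
      by_cases hcase : ν k ≤ n ∧ n ≤ e k
      · have e1 : qq e ν n k = n := by rw [qq]; omega
        have e2 : qq e ν (n + 1) k = n + 1 := by rw [qq]; omega
        have hgr := hgrow k hk n hcase.1 hcase.2 (by omega)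
        have hts := tri_succ n
        rw [e2]
        rw [e1] at hP
        have e3 : D k - tri n = (D k - tri (n + 1)) + (n + 1) := by omega
        rw [e3] at hP
        obtain ⟨p, hp0, hp⟩ := wd_grow hH hG₁ hG₁ne (by omega) hP
        refine ⟨p, hp0, fun ε hε => ?_⟩
        simp only [Set.mem_ofPred_eq, not_or] at hε
        exact hp ε hε.1 (IsCoprime.mul_left (isCoprime_lf hε.1 hε.2) hcop)
      · have e1 : qq e ν (n + 1) k = qq e ν n k := by
          have := hν k hk
          rw [qq, qq]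
          omega
        rw [e1]
        obtain ⟨p, hp0, hp⟩ := wd_lift hP
        exact ⟨p, hp0, fun ε _ => hp ε⟩

end Pool.Agent.Helper48.SQ
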